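import Pool.Agent.Lib.MP_a3e05c_co.CA.Chain2
import Pool.Agent.Lib.MP_a3e05c_co.NUM.Twins
import Pool.Agent.Lib.MP_a3e05c_co.KL.CliqueUp

/-!
# EULER, block CA: closed components on `n` vertices with at least `(n - 1) / 2` missing edges
-/

open Finset Real

namespace MP_a3e05c_co.CA

open KL NCS

/-- `ρ(d, d-1) = (d - 2) / (2 (d - 1))` -/
theorem rh_top {d : ℕ} (h : 2 ≤ d) : rh d (d - 1) = ((d : ℝ) - 2) / (2 * ((d : ℝ) - 1)) := by
  have h2 : (2 : ℝ) ≤ d := by exact_mod_cast h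
  unfold rh
  have e1 : ((d - 1 : ℕ) : ℝ) = d - 1 := by
    rw [Nat.cast_sub (by omega)]
    norm_num
  rw [e1]
  have e2 : (d : ℝ) - (d - 1) + 1 = 2 := by ring
  rw [e2]
  congr 1 <;> ring

theorem rh_top_mono {d D : ℕ} (h : 2 ≤ d) (hD : d ≤ D) : rh d (d - 1) ≤ rh D (D - 1) := by
  rw [rh_top h, rh_top (h.trans hD)]
  have h2 : (2 : ℝ) ≤ d := by exact_mod_cast h
  have h3 : (d : ℝ) ≤ D := by exact_mod_cast hD
  rw [div_le_div_iff₀ (by linarith) (by linarith)]
  nlinarith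

/-- the second deletion -/
theorem FM_top_le {D : ℕ} (hD : Even D) (h4 : 4 ≤ D) {y : ℝ} (hy0 : 0 ≤ y)
    (hy : y ≤ ((D : ℝ) - 1) * rh D (D - 1)) :
    FM (D - 1) 1 (((D - 1 : ℕ) : ℝ) - y) ≤ exp (ft D) := by
  have hD4 : (4 : ℝ) ≤ D := by exact_mod_cast h4
  rw [rh_top (by omega)] at hy
  have hy2 : y ≤ ((D : ℝ) - 2) / 2 := by
    refine hy.trans (le_of_eq ?_)
    have : (D : ℝ) - 1 ≠ 0 := by linarith
    field_simp
  have h1 := FM_le_G (d := D) (k := D - 1) hD (by omega) hy0 (by linarith)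
  have e1 : D - (D - 1) = 1 := by omega
  rw [e1] at h1
  refine h1.trans ?_
  have h2 : ((D : ℝ) / (2 * (D - 1))) ≤ 1 - y / (D - 1) := by
    have h3 : y / ((D : ℝ) - 1) ≤ (((D : ℝ) - 2) / 2) / (D - 1) :=
      div_le_div_of_nonneg_right hy2 (by linarith)
    have h4 : 1 - (((D : ℝ) - 2) / 2) / (D - 1) = (D : ℝ) / (2 * (D - 1)) := by
      have : (D : ℝ) - 1 ≠ 0 := by linarith
      field_simp
      ring
    linarith
  have h5 : 0 < (D : ℝ) / (2 * (D - 1)) := by
    apply div_pos <;> linarith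
  have h6 : 1 / Real.sqrt (1 - y / ((D : ℝ) - 1)) ≤ 1 / Real.sqrt ((D : ℝ) / (2 * (D - 1))) := by
    apply one_div_le_one_div_of_le (Real.sqrt_pos.2 h5)
    exact Real.sqrt_le_sqrt h2
  have h7 : exp (ft D) = bb (D / 2) * (1 / Real.sqrt ((D : ℝ) / (2 * (D - 1)))) := by
    unfold ft
    rw [exp_add, exp_log (cb_pos _)]
    have h8 : Real.exp (1 / 2 * log (2 * ((D : ℝ) - 1) / D)) =
        Real.sqrt (2 * ((D : ℝ) - 1) / D) := by
      rw [Real.sqrt_eq_rpow, Real.rpow_def_of_pos (by apply div_pos <;> linarith), mul_comm]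
    rw [h8, one_div, ← Real.sqrt_inv, inv_div]
    rfl
  rw [h7]
  exact mul_le_mul_of_nonneg_left h6 (KL.bb_pos _).le

variable {V E : Type} [Fintype V] [DecidableEq V] [Fintype E] [DecidableEq E]

/-- **Closed components with many missing edges.**  `C` is closed on `n ≥ 9` vertices, `q` edges
are missing, `n - 1 ≤ 2 q`, and there are two vertices of degree `n - 1`. -/
theorem closed_ge {hd : E → Bool → V} (hs : Simple hd) (hev : ∀ v, Even (deg hd v))
    {C : Finset V} (hC : Closed hd C) {n q : ℕ} (hn : C.card = n) (hodd : Odd n) (h9 : 9 ≤ n)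
    (hsum : ∑ v ∈ C, (n - 1 - deg hd v) = 2 * q) (hq : n - 1 ≤ 2 * q)
    (htw : 2 ≤ (C.filter fun v => deg hd v = n - 1).card)
    (hI : ∀ W ⊆ C, W.card = 2 → (∀ w ∈ W, deg hd w = n - 1) →
      PA hd (C \ W) ≤ Real.exp (∑ v ∈ C \ W, phi (deg hd v) (kk hd (C \ W) v))) :
    PA hd C ≤ Real.exp (∑ v ∈ C, AA (deg hd v)) := by
  obtain ⟨D, hD⟩ : ∃ D, n = D + 1 := ⟨n - 1, by omega⟩
  subst hD
  have hDe : Even D := by
    rcases Nat.even_or_odd D with h | h
    · exact h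
    · exact absurd hodd (Nat.not_odd_iff_even.2 h.add_one)
  have hD8 : 8 ≤ D := by omega
  have hD8' : (8 : ℝ) ≤ D := by exact_mod_cast hD8
  have hTT : 0 ≤ TT D := by
    rw [TT_eq_Ud (by omega)]
    have := PK_le_Ud hDe (by omega : 4 ≤ D)
    linarith
  refine NUM.twins_bound hs hev hC hn hodd hsum (by norm_num : 1 ≤ 2) (by omega) htw AA phi hI
    (fun _ => -ft D) (fun _ => rh D (D - 1)) (fun _ => 0) (g2 D) (2 * TT D / D) ?_ ?_ ?_ ?_
  · intro i h1 h2 y hy0 hy
    obtain rfl : i = 1 := by omega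
    have e1 : D + 1 - 1 - 1 = D - 1 := by omega
    rw [e1, neg_neg]
    apply FM_top_le hDe (by omega) hy0
    push_cast at hy
    have e2 : (D : ℝ) + 1 - 1 - 1 = D - 1 := by ring
    rw [e2, mul_zero, sub_zero] at hy
    exact hy
  · intro i h1 h2 m hm
    obtain rfl : i = 1 := by omega
    have e1 : D + 1 - 1 - 2 * m = D - 2 * m := by omega
    rw [e1, mul_zero, sub_zero]
    exact rh_top_mono (by omega) (by omega)
  · intro m hm
    have e1 : D + 1 - 1 - 2 * m = D - 2 * m := by omega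
    rw [e1]
    exact g2_chain hDe hD8 (by omega)
  · have e1 : D + 1 - 1 = D := by omega
    rw [e1]
    have e2 : ∑ i ∈ Ico 1 2, (fun _ : ℕ => -ft D) i = -ft D := by simp
    rw [e2]
    push_cast
    have h1 := TT_g2 (d := D) (by omega)
    have hqr : (D : ℝ) ≤ 2 * q := by
      have h2 : D ≤ 2 * q := by omega
      exact_mod_cast h2
    have h3 : TT D ≤ q * (2 * TT D / D) := by
      have h4 : (q : ℝ) * (2 * TT D / D) = TT D * (2 * q / D) := by ring
      rw [h4]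
      have h5 : 1 ≤ 2 * (q : ℝ) / D := by
        rw [le_div_iff₀ (by linarith)]
        linarith
      nlinarith
    have h6 : (2 : ℝ) * AA D + ((D : ℝ) + 1 - 2) * g2 D + q * (2 * TT D / D) + -ft D =
        (2 * AA D + ((D : ℝ) - 1) * g2 D - ft D) + q * (2 * TT D / D) := by ring
    rw [h6, h1]
    linarith

end MP_a3e05c_co.CA
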