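import Pool.Agent.Lib.MP_a3e05c_co.NCS.Cb

/-!
# EULER, block CA: sharper bounds for the central binomial coefficient
-/

open Finset Filter Topology Real

namespace MP_a3e05c_co.CA

open NCS

private theorem Cb2_mono : Monotone fun m : ℕ =>
    cb (m + 1) ^ 2 * (((m : ℝ) + 1) + 1 / 4 + 1 / (32 * ((m : ℝ) + 1) + 12)) := by
  apply monotone_nat_of_le_succ
  intro m
  rw [cb_succ (m + 1)]
  push_cast
  have h := cb_pos (m + 1)
  have hm : (0 : ℝ) ≤ m := Nat.cast_nonneg m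
  have h1 : ((m : ℝ) + 1) + 1 / 4 + 1 / (32 * ((m : ℝ) + 1) + 12) ≤
      ((2 * ((m : ℝ) + 1) + 1) / (2 * ((m : ℝ) + 1) + 2)) ^ 2 *
        (m + 1 + 1 + 1 / 4 + 1 / (32 * ((m : ℝ) + 1 + 1) + 12)) := by
    rw [← sub_nonneg]
    have e : ((2 * ((m : ℝ) + 1) + 1) / (2 * ((m : ℝ) + 1) + 2)) ^ 2 *
        (m + 1 + 1 + 1 / 4 + 1 / (32 * ((m : ℝ) + 1 + 1) + 12)) -
        (((m : ℝ) + 1) + 1 / 4 + 1 / (32 * ((m : ℝ) + 1) + 12)) =
        (48 * ((m : ℝ) + 1) - 32) / ((2 * ((m : ℝ) + 1) + 2) ^ 2 *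
          (32 * ((m : ℝ) + 1) + 12) * (32 * ((m : ℝ) + 1 + 1) + 12)) := by
      field_simp
      ring
    rw [e]
    apply div_nonneg
    · linarith
    · positivity
  calc cb (m + 1) ^ 2 * (((m : ℝ) + 1) + 1 / 4 + 1 / (32 * ((m : ℝ) + 1) + 12)) ≤
      cb (m + 1) ^ 2 * (((2 * ((m : ℝ) + 1) + 1) / (2 * ((m : ℝ) + 1) + 2)) ^ 2 *
        (m + 1 + 1 + 1 / 4 + 1 / (32 * ((m : ℝ) + 1 + 1) + 12))) :=
        mul_le_mul_of_nonneg_left h1 (by positivity)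
    _ = _ := by ring

private theorem Cb2_tendsto : Tendsto (fun m : ℕ =>
    cb (m + 1) ^ 2 * (((m : ℝ) + 1) + 1 / 4 + 1 / (32 * ((m : ℝ) + 1) + 12))) atTop
    (𝓝 (1 / π)) := by
  have h1 : (fun m : ℕ => cb (m + 1) ^ 2 *
      (((m : ℝ) + 1) + 1 / 4 + 1 / (32 * ((m : ℝ) + 1) + 12))) =
      fun m : ℕ => (cb (m + 1) ^ 2 * (((m + 1 : ℕ) : ℝ) + 1 / 4)) *
        (1 + (1 / ((((m + 1 : ℕ) : ℝ) + 1 / 4))) * (1 / (32 * ((m : ℝ) + 1) + 12))) := by
    funext m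
    push_cast
    have h2 : ((m : ℝ) + 1 + 1 / 4) ≠ 0 := by positivity
    have h3 : (32 * ((m : ℝ) + 1) + 12) ≠ 0 := by positivity
    field_simp
  rw [h1]
  have h2 : Tendsto (fun m : ℕ => cb (m + 1) ^ 2 * (((m + 1 : ℕ) : ℝ) + 1 / 4)) atTop
      (𝓝 (1 / π)) := cb_tendsto.comp (tendsto_add_atTop_nat 1)
  have h3 : Tendsto (fun m : ℕ => 1 / ((((m + 1 : ℕ) : ℝ) + 1 / 4))) atTop (𝓝 0) := by
    have h7 : Tendsto (fun m : ℕ => ((m + 1 : ℕ) : ℝ) + 1 / 4) atTop atTop :=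
      tendsto_atTop_add_const_right _ _
        (tendsto_natCast_atTop_atTop.comp (tendsto_add_atTop_nat 1))
    have h8 := tendsto_inv_atTop_zero.comp h7
    refine h8.congr fun m => ?_
    simp [Function.comp]
  have h4 : Tendsto (fun m : ℕ => 1 / (32 * ((m : ℝ) + 1) + 12)) atTop (𝓝 0) := by
    have h7 : Tendsto (fun m : ℕ => 32 * ((m : ℝ) + 1) + 12) atTop atTop := by
      apply tendsto_atTop_add_const_right
      apply Tendsto.const_mul_atTop (by norm_num)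
      exact tendsto_atTop_add_const_right _ _ tendsto_natCast_atTop_atTop
    have h8 := tendsto_inv_atTop_zero.comp h7
    refine h8.congr fun m => ?_
    simp [Function.comp]
  have h5 := h2.mul ((tendsto_const_nhds (x := (1 : ℝ))).add (h3.mul h4))
  simpa using h5

/-- sharper upper bound for the central binomial coefficient -/
theorem cb_sq_le2 (m : ℕ) (hm : 1 ≤ m) :
    cb m ^ 2 ≤ 1 / (π * ((m : ℝ) + 1 / 4 + 1 / (32 * m + 12))) := by
  obtain ⟨k, rfl⟩ : ∃ k, m = k + 1 := ⟨m - 1, by omega⟩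
  have h := Cb2_mono.ge_of_tendsto Cb2_tendsto k
  have hp := pi_pos
  push_cast
  have hk : (0 : ℝ) ≤ k := Nat.cast_nonneg k
  have h2 : 0 < ((k : ℝ) + 1) + 1 / 4 + 1 / (32 * ((k : ℝ) + 1) + 12) := by positivity
  rw [le_div_iff₀ (by positivity)]
  have h1 : cb (k + 1) ^ 2 * (((k : ℝ) + 1) + 1 / 4 + 1 / (32 * ((k : ℝ) + 1) + 12)) ≤
      1 / π := h
  rw [le_div_iff₀ hp] at h1
  linarith

/-- lower bound for the central binomial coefficient -/
theorem le_cb_sq (m : ℕ) : 1 / (π * ((m : ℝ) + 1 / 2)) ≤ cb m ^ 2 := by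
  have h := cb_wallis m
  have hW := Wallis.W_le m
  have hW0 := Wallis.W_pos m
  have hp := pi_pos
  have hc := cb_pos m
  rw [div_le_iff₀ (by positivity)]
  have h1 : cb m ^ 2 * (2 * m + 1) * Wallis.W m ≤ cb m ^ 2 * (2 * m + 1) * (π / 2) :=
    mul_le_mul_of_nonneg_left hW (by positivity)
  rw [h] at h1
  linarith

theorem le_log_cb (m : ℕ) : -(1 / 2) * log (π * ((m : ℝ) + 1 / 2)) ≤ log (cb m) := by
  have h := le_cb_sq m
  have hp := pi_pos
  have h1 : log (1 / (π * ((m : ℝ) + 1 / 2))) ≤ log (cb m ^ 2) :=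
    log_le_log (by positivity) h
  rw [log_pow, one_div, log_inv] at h1
  push_cast at h1
  linarith

/-- logarithmic form, `n = 2 m + 1` -/
theorem log_cb_le2 (m : ℕ) (hm : 1 ≤ m) : log (cb m) ≤
    -(1 / 2) * log (π * (2 * (m : ℝ) + 1 / 2 + 2 / (32 * m + 12)) / 2) := by
  have h := cb_sq_le2 m hm
  have hp := pi_pos
  have hm0 : (0 : ℝ) ≤ m := Nat.cast_nonneg m
  have h1 : log (cb m ^ 2) ≤ log (1 / (π * ((m : ℝ) + 1 / 4 + 1 / (32 * m + 12)))) :=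
    log_le_log (by have := cb_pos m; positivity) h
  rw [log_pow, one_div, log_inv] at h1
  have h2 : π * (2 * (m : ℝ) + 1 / 2 + 2 / (32 * m + 12)) / 2 =
      π * ((m : ℝ) + 1 / 4 + 1 / (32 * m + 12)) := by ring
  rw [h2]
  push_cast at h1
  linarith

end MP_a3e05c_co.CA
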