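import Pool.Agent.Lib.MP_a3e05c_co.CA.Tab
import Pool.Agent.Lib.MP_a3e05c_co.RT.Low2

/-!
# EULER, block CA: the gain of the neighbours of smaller degree
-/

open Finset Real

namespace MP_a3e05c_co.CA

open KL NCS

theorem ah_le {d : ℕ} (hd : Even d) (h : 24 ≤ d) : ah d ≤ AA d := by
  have h1 := RT.PK_low2 (d + 1) hd.add_one (by omega)
  have h2 : mainR ((d + 1 : ℕ) : ℝ) + 9 / (100 * ((d + 1 : ℕ) : ℝ)) ≤ log (PK (d + 1)) := by
    rw [le_log_iff_exp_le ((exp_pos _).trans_le h1)]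
    exact h1
  unfold ah AA
  push_cast at h2
  have h3 : 9 / 100 / ((d : ℝ) + 1) = 9 / (100 * ((d : ℝ) + 1)) := by
    rw [div_div]
  rw [h3]
  exact div_le_div_of_nonneg_right h2 (by positivity)

theorem Ud_le_uh {d : ℕ} (hd : Even d) (h : 20 ≤ d) : Ud d ≤ uh d := by
  have h1 := Ud_le2 d hd h
  unfold uh
  exact h1

theorem tau_step {d : ℕ} (h : 24 ≤ d) :
    tau (d + 2) / ((d + 2 : ℕ) : ℝ) ≤ tau d / (d : ℝ) := by
  have hd : (24 : ℝ) ≤ d := by exact_mod_cast h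
  unfold tau
  push_cast
  set x : ℝ := (d : ℝ) with hx
  have e1 : x + 2 + 1 = x + 3 := by ring
  rw [e1]
  have h1 : log (x + 3) ≤ log (x + 1) + 2 / (x + 1) := by
    have h2 : x + 3 = (x + 1) * (1 + 2 / (x + 1)) := by
      field_simp
      ring
    rw [h2, log_mul (by positivity) (by positivity)]
    have h3 := log_le_sub_one_of_pos (x := 1 + 2 / (x + 1)) (by positivity)
    linarith
  have h4 : 29 / 10 ≤ log (x + 1) := log_19.trans (log_le_log (by norm_num) (by linarith))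
  set L := log (x + 1) with hL
  have h5 : (log (x + 3) / 2 - 17 / 100) / (x + 3) / (x + 2) ≤
      (L / 2 + 1 / (x + 1) - 17 / 100) / (x + 3) / (x + 2) := by
    apply div_le_div_of_nonneg_right _ (by linarith)
    apply div_le_div_of_nonneg_right _ (by linarith)
    have : 2 / (x + 1) = 2 * (1 / (x + 1)) := by ring
    rw [this] at h1
    linarith
  refine h5.trans ?_
  rw [div_div, div_div, div_le_div_iff₀ (by positivity) (by positivity)]
  have h6 : (L / 2 + 1 / (x + 1) - 17 / 100) * ((x + 1) * x) =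
      (L / 2 - 17 / 100) * ((x + 1) * x) + x := by
    field_simp
    ring
  rw [h6]
  have h7 : 1 ≤ L / 2 - 17 / 100 := by linarith
  nlinarith

theorem tau_anti {d : ℕ} (h : 24 ≤ d) (i : ℕ) :
    tau (d + 2 * i) / ((d + 2 * i : ℕ) : ℝ) ≤ tau d / (d : ℝ) := by
  induction i with
  | zero => simp
  | succ i ih =>
    have h1 := tau_step (d := d + 2 * i) (by omega)
    have e1 : d + 2 * (i + 1) = d + 2 * i + 2 := by ring
    rw [e1]
    exact h1.trans ih

/-- chain of the one-step inequalities down to `24` -/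
theorem gh_chain (k : ℕ) (hk : 12 ≤ k) (i : ℕ) :
    gh (2 * (k + i)) + i * (2 * tau (2 * (k + i)) / ((2 * (k + i) : ℕ) : ℝ)) ≤ gh (2 * k) := by
  -- for fixed top, descend
  suffices h : ∀ j, j ≤ i → gh (2 * (k + i)) + j * (2 * tau (2 * (k + i)) /
      ((2 * (k + i) : ℕ) : ℝ)) ≤ gh (2 * (k + (i - j))) by
    have := h i le_rfl
    rwa [Nat.sub_self, Nat.add_zero] at this
  intro j
  induction j with
  | zero => simp
  | succ j ih =>
    intro hj
    have h1 := ih (by omega)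
    have h2 := one_step (k + (i - (j + 1))) (by omega)
    have e1 : 2 * (k + (i - (j + 1))) + 2 = 2 * (k + (i - j)) := by omega
    rw [e1] at h2
    have h3 := tau_anti (d := 2 * (k + (i - j))) (by omega) j
    have e2 : 2 * (k + (i - j)) + 2 * j = 2 * (k + i) := by omega
    rw [e2] at h3
    push_cast at h1 h2 h3 ⊢
    have e3 : 2 * tau (2 * (k + i)) / (2 * ((k : ℝ) + i)) =
        2 * (tau (2 * (k + i)) / (2 * ((k : ℝ) + i))) := by ring
    have e4 : ∀ z : ℝ, 2 * tau (2 * (k + (i - j))) / z = 2 * (tau (2 * (k + (i - j))) / z) := by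
      intro z
      ring
    rw [e3] at h1 ⊢
    rw [e4] at h2
    linarith

theorem lg_bounds : log 25 ≤ 3218876 / 1000000 ∧ 3218875 / 1000000 ≤ log 25 ∧
    log (3927 / 100) ≤ 3670462 / 1000000 ∧
    log (46 / 24) ≤ 650589 / 1000000 ∧ 1825231 / 1000000 ≤ log (16777216 / 2704156) := by
  have hS : (NUM.S : ℝ) = 10 ^ 15 := by norm_num [NUM.S]
  have h1 := NUM.le_lgU (a := 25) (b := 1) (by norm_num) (by norm_num)
  have h2 := NUM.lgL_le (a := 25) (b := 1) (by norm_num) (by norm_num)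
  have h3 := NUM.le_lgU (a := 3927) (b := 100) (by norm_num) (by norm_num)
  have h4 := NUM.le_lgU (a := 46) (b := 24) (by norm_num) (by norm_num)
  have h5 := NUM.lgL_le (a := 16777216) (b := 2704156) (by norm_num) (by norm_num)
  have g1 : NUM.lgU 25 1 ≤ 3218876 * 10 ^ 9 := by decide +kernel
  have g2 : 3218875 * 10 ^ 9 ≤ NUM.lgL 25 1 := by decide +kernel
  have g3 : NUM.lgU 3927 100 ≤ 3670462 * 10 ^ 9 := by decide +kernel
  have g4 : NUM.lgU 46 24 ≤ 650589 * 10 ^ 9 := by decide +kernel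
  have g5 : 1825231 * 10 ^ 9 ≤ NUM.lgL 16777216 2704156 := by decide +kernel
  have g1' : (NUM.lgU 25 1 : ℝ) ≤ 3218876 * 10 ^ 9 := by exact_mod_cast g1
  have g2' : (3218875 * 10 ^ 9 : ℝ) ≤ NUM.lgL 25 1 := by exact_mod_cast g2
  have g3' : (NUM.lgU 3927 100 : ℝ) ≤ 3670462 * 10 ^ 9 := by exact_mod_cast g3
  have g4' : (NUM.lgU 46 24 : ℝ) ≤ 650589 * 10 ^ 9 := by exact_mod_cast g4
  have g5' : (1825231 * 10 ^ 9 : ℝ) ≤ NUM.lgL 16777216 2704156 := by exact_mod_cast g5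
  rw [hS] at h1 h2 h3 h4 h5
  push_cast at h1 h2 h3 h4 h5
  rw [div_one] at h1 h2
  refine ⟨by linarith, by linarith, by linarith, by linarith, by linarith⟩

theorem gh_24 : gh 24 + 2 * tau 24 / 24 ≤ 8677 / 100000 := by
  obtain ⟨h1, h2, h3, h4, h5⟩ := lg_bounds
  have hp := pi_pos
  have hp2 : π < 3.1416 := pi_lt_d4
  have h6 : log (π * 25 / 2) ≤ 3670462 / 1000000 := by
    refine le_trans (log_le_log (by positivity) ?_) h3
    linarith
  have h7 : log (cb 12) ≤ -(1825231 / 1000000) := by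
    have e1 : cb 12 = (16777216 / 2704156 : ℝ)⁻¹ := by
      unfold cb
      have : Nat.centralBinom 12 = 2704156 := by decide +kernel
      rw [this]
      norm_num
    rw [e1, log_inv]
    linarith
  unfold gh ah tau mainR ft
  norm_num at h1 h2 h3 h4 h5 h6 h7 ⊢
  linarith

theorem tau_24 : 2 * tau 24 / 24 ≤ 480 / 100000 := by
  obtain ⟨h1, h2, h3, h4, h5⟩ := lg_bounds
  unfold tau
  norm_num at h1 ⊢
  linarith

/-- lower bounds for `g2 d`, in units of `10 ^ (-5)` -/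
def rT : ℕ → ℕ
  | 2 => 23104
  | 4 => 21731
  | 6 => 18397
  | 8 => 15995
  | 10 => 14190
  | 12 => 12782
  | 14 => 11649
  | 16 => 10718
  | 18 => 9936
  | 20 => 9270
  | 22 => 8677
  | _ => 0

theorem row_all (d : ℕ) (hd : Even d) (h2 : 2 ≤ d) (h : d ≤ 22) : Row d := by
  obtain ⟨k, rfl⟩ := hd
  have h1 : k = 1 ∨ k = 2 ∨ k = 3 ∨ k = 4 ∨ k = 5 ∨ k = 6 ∨ k = 7 ∨ k = 8 ∨ k = 9 ∨ k = 10 ∨
      k = 11 := by omega
  rcases h1 with rfl | rfl | rfl | rfl | rfl | rfl | rfl | rfl | rfl | rfl | rfl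
  · exact row_2
  · exact row_4
  · exact row_6
  · exact row_8
  · exact row_10
  · exact row_12
  · exact row_14
  · exact row_16
  · exact row_18
  · exact row_20
  · exact row_22

/-- the value of the table for `g2 d` -/
theorem le_g2_tab (d : ℕ) (hd : Even d) (h2 : 2 ≤ d) (h : d ≤ 22) :
    (-(fuT d : ℝ) + 2 * alT d + upT d - (d + 1) * alT d) / (d - 1) / 10 ^ 10 ≤ g2 d := by
  have r := row_all d hd h2 h
  have h1 := le_g2 h2 r.a r.u
  have hd2 : (2 : ℝ) ≤ d := by exact_mod_cast h2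
  refine le_trans ?_ h1
  rw [div_div, mul_comm ((d : ℝ) - 1), ← div_div]
  apply div_le_div_of_nonneg_right _ (by linarith)
  have h3 := r.f'
  have e : (-(fuT d : ℝ) + 2 * alT d + upT d - (d + 1) * alT d) / 10 ^ 10 =
      -(fuT d : ℝ) / 10 ^ 10 - 2 * (-(alT d : ℝ) / 10 ^ 10) -
        (-(upT d : ℝ) / 10 ^ 10 - (d + 1) * (-(alT d : ℝ) / 10 ^ 10)) := by
    ring
  rw [e]
  linarith

theorem rT_le (d : ℕ) (hd : Even d) (h2 : 2 ≤ d) (h : d ≤ 22) :
    (rT d : ℝ) / 100000 ≤ g2 d := by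
  refine le_trans ?_ (le_g2_tab d hd h2 h)
  obtain ⟨k, rfl⟩ := hd
  have h1 : k = 1 ∨ k = 2 ∨ k = 3 ∨ k = 4 ∨ k = 5 ∨ k = 6 ∨ k = 7 ∨ k = 8 ∨ k = 9 ∨ k = 10 ∨
      k = 11 := by omega
  rcases h1 with rfl | rfl | rfl | rfl | rfl | rfl | rfl | rfl | rfl | rfl | rfl <;>
    norm_num [rT, alT, upT, fuT]

/-- the case `D ≤ 22` -/
theorem g2_chain_small {D m : ℕ} (hD : Even D) (h8 : 8 ≤ D) (h22 : D ≤ 22) (hm : 1 ≤ m)
    (hmD : 2 * m + 2 ≤ D) : g2 D + m * (2 * TT D / D) ≤ g2 (D - 2 * m) := by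
  have hde : Even (D - 2 * m) := by
    obtain ⟨a, ha⟩ := hD
    exact ⟨a - m, by omega⟩
  have r := row_all D hD (by omega) h22
  have h1 := g2_add_le (D := D) (by omega) r.a r.u (m := m) (by exact_mod_cast hm)
  have h2 := le_g2_tab (D - 2 * m) hde (by omega) (by omega)
  refine h1.trans (le_trans ?_ h2)
  have hp := pair_all D (by rw [List.mem_range]; omega) h8 (Nat.even_iff.1 hD) m
    (by rw [List.mem_range]; omega) hm hmD
  unfold Pair at hp
  have hp' : ((D : ℝ) - 2 * m - 1) * (D * (-(flT D : ℝ) + 2 * alT D + upT D -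
      (D + 1) * alT D) + (D - 1) * (m * (2 * (-(upT D : ℝ) + (D + 1) * alT D)))) ≤
      D * (D - 1) * (-(fuT (D - 2 * m) : ℝ) + 2 * alT (D - 2 * m) + upT (D - 2 * m) -
        ((D : ℝ) - 2 * m + 1) * alT (D - 2 * m)) := by exact_mod_cast hp
  have hD8 : (8 : ℝ) ≤ D := by exact_mod_cast h8
  have hm1 : (1 : ℝ) ≤ m := by exact_mod_cast hm
  have hmD' : 2 * (m : ℝ) + 2 ≤ D := by exact_mod_cast hmD
  have c1 : ((D - 2 * m : ℕ) : ℝ) = (D : ℝ) - 2 * m := by
    rw [Nat.cast_sub (by omega)]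
    push_cast
    ring
  rw [c1]
  have hf := r.f
  have hD1 : 0 < (D : ℝ) - 1 := by linarith
  have hd1 : 0 < (D : ℝ) - 2 * m - 1 := by linarith
  have h3 : (ft D - 2 * (-(alT D : ℝ) / 10 ^ 10) - (-(upT D : ℝ) / 10 ^ 10 -
      (D + 1) * (-(alT D : ℝ) / 10 ^ 10))) / ((D : ℝ) - 1) ≤
      (-(flT D : ℝ) + 2 * alT D + upT D - (D + 1) * alT D) / ((D : ℝ) - 1) / 10 ^ 10 := by
    rw [div_div (-(flT D : ℝ) + 2 * alT D + upT D - (D + 1) * alT D), mul_comm ((D : ℝ) - 1),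
      ← div_div]
    apply div_le_div_of_nonneg_right _ hD1.le
    have e : (-(flT D : ℝ) + 2 * alT D + upT D - (D + 1) * alT D) / 10 ^ 10 =
        -(flT D : ℝ) / 10 ^ 10 - 2 * (-(alT D : ℝ) / 10 ^ 10) -
        (-(upT D : ℝ) / 10 ^ 10 - (D + 1) * (-(alT D : ℝ) / 10 ^ 10)) := by
      ring
    rw [e]
    linarith
  have h4 : (m : ℝ) * (2 * (-(upT D : ℝ) / 10 ^ 10 - (D + 1) * (-(alT D : ℝ) / 10 ^ 10)) / D) =
      (m * (2 * (-(upT D : ℝ) + (D + 1) * alT D)) / D) / 10 ^ 10 := by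
    field_simp
    ring
  rw [h4]
  have h5 : (-(flT D : ℝ) + 2 * alT D + upT D - (D + 1) * alT D) / ((D : ℝ) - 1) / 10 ^ 10 +
      (m * (2 * (-(upT D : ℝ) + (D + 1) * alT D)) / D) / 10 ^ 10 ≤
      (-(fuT (D - 2 * m) : ℝ) + 2 * alT (D - 2 * m) + upT (D - 2 * m) -
        ((D : ℝ) - 2 * m + 1) * alT (D - 2 * m)) / ((D : ℝ) - 2 * m - 1) / 10 ^ 10 := by
    rw [← add_div]
    apply div_le_div_of_nonneg_right _ (by norm_num)
    rw [div_add_div _ _ hD1.ne' (by linarith), div_le_div_iff₀ (by positivity) hd1]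
    linarith
  linarith

/-- a full neighbour of degree `D - 2 m` gains at least `m (2 T_D / D)` more than one of
degree `D` -/
theorem g2_chain {D m : ℕ} (hD : Even D) (h8 : 8 ≤ D) (hmD : 2 * m + 2 ≤ D) :
    g2 D + m * (2 * TT D / D) ≤ g2 (D - 2 * m) := by
  rcases Nat.eq_zero_or_pos m with rfl | hm
  · simp
  rcases Nat.lt_or_ge D 24 with hlt | hge
  · have h22 : D ≤ 22 := by
      obtain ⟨a, ha⟩ := hD
      omega
    exact g2_chain_small hD h8 h22 hm hmD
  have hde : Even (D - 2 * m) := by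
    obtain ⟨a, ha⟩ := hD
    exact ⟨a - m, by omega⟩
  have h1 := g2_add_le (D := D) (by omega) (ah_le hD hge) (Ud_le_uh hD (by omega))
    (m := m) (by exact_mod_cast hm)
  rw [uh_sub] at h1
  have h1' : g2 D + m * (2 * TT D / D) ≤ gh D + m * (2 * tau D / D) := h1
  refine h1'.trans ?_
  obtain ⟨a, ha⟩ := hD
  rcases Nat.lt_or_ge (D - 2 * m) 24 with hlt2 | hge2
  · -- below 24
    have ha12 : 12 ≤ a := by omega
    obtain ⟨i, hi⟩ : ∃ i, a = 12 + i := ⟨a - 12, by omega⟩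
    obtain ⟨j, hj⟩ : ∃ j, m = i + 1 + j := ⟨m - i - 1, by omega⟩
    have hDi : D = 2 * (12 + i) := by omega
    have h2 := gh_chain 12 le_rfl i
    rw [← hDi] at h2
    have h3 := tau_anti (d := 24) le_rfl i
    have e1 : 24 + 2 * i = D := by omega
    rw [e1] at h3
    have h4 := gh_24
    have h5 := tau_24
    have h6 := rT_le (D - 2 * m) hde (by omega) (by omega)
    refine le_trans ?_ h6
    have hdm : D - 2 * m = 22 - 2 * j := by omega
    rw [hdm]
    have h7 : (8677 : ℝ) / 100000 + j * (480 / 100000) ≤ (rT (22 - 2 * j) : ℝ) / 100000 := by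
      have hj10 : j = 0 ∨ j = 1 ∨ j = 2 ∨ j = 3 ∨ j = 4 ∨ j = 5 ∨ j = 6 ∨ j = 7 ∨ j = 8 ∨
          j = 9 ∨ j = 10 := by omega
      rcases hj10 with rfl | rfl | rfl | rfl | rfl | rfl | rfl | rfl | rfl | rfl | rfl <;>
        norm_num [rT]
    refine le_trans ?_ h7
    have hm' : (m : ℝ) = i + 1 + j := by
      rw [hj]
      push_cast
      ring
    rw [hm']
    push_cast at h3
    have h8 : 2 * tau D / D = 2 * (tau D / D) := by ring
    have h9 : 2 * tau 24 / 24 = 2 * (tau 24 / 24) := by ring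
    rw [h8] at h2 ⊢
    rw [h9] at h4 h5
    have h10 : (j : ℝ) * (2 * (tau D / D)) ≤ j * (480 / 100000) := by
      apply mul_le_mul_of_nonneg_left _ (Nat.cast_nonneg j)
      linarith
    have e2 : 2 * 12 = 24 := rfl
    rw [e2] at h2
    linarith
  · -- above 24
    obtain ⟨k, hk⟩ : ∃ k, D - 2 * m = 2 * k := ⟨a - m, by omega⟩
    have hDk : D = 2 * (k + m) := by omega
    have h2 := gh_chain k (by omega) m
    rw [← hDk] at h2
    refine h2.trans ?_
    rw [← hk]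
    have h3 := le_g2 (d := D - 2 * m) (by omega) (ah_le hde hge2) (Ud_le_uh hde (by omega))
    rw [uh_sub] at h3
    exact h3

end MP_a3e05c_co.CA
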