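import Pool.Agent.Lib.MP_a3e05c_co.NCS.Chain
import Pool.Agent.Lib.MP_a3e05c_co.CA.Cb2

/-!
# EULER, block CA: the chain bound with the sharper constant
-/

open Finset Filter Topology Real

namespace MP_a3e05c_co.CA

open NCS

/-- `n = 2 m + 1`: `C(2m,m)^2 / 16^m ≤ (2 / (π n)) exp (1 / (2 n))` in logarithmic form -/
theorem log_cb_le3 (m : ℕ) (hm : 1 ≤ m) : log (cb m) ≤
    -(1 / 2) * log (π * (2 * (m : ℝ) + 1) / 2) + 1 / (4 * (2 * (m : ℝ) + 1)) := by
  have h := log_cb_le2 m hm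
  have hp := pi_pos
  have hm1 : (1 : ℝ) ≤ m := by exact_mod_cast hm
  set s : ℝ := 1 / (2 * (2 * (m : ℝ) + 1)) with hs
  have hs0 : 0 < s := by positivity
  have hs1 : s ≤ 1 / 6 := by
    rw [hs]
    apply one_div_le_one_div_of_le (by norm_num)
    linarith
  have h1 : π * (2 * (m : ℝ) + 1 / 2 + 2 / (32 * m + 12)) / 2 =
      π * (2 * (m : ℝ) + 1) / 2 * (1 - s + s ^ 2 / (2 - s)) := by
    have e1 : 2 * (m : ℝ) + 1 = 1 / (2 * s) := by
      rw [hs]
      field_simp
    have e2 : (m : ℝ) = (1 - 2 * s) / (4 * s) := by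
      field_simp
      field_simp at e1
      linarith
    have e3 : 32 * (m : ℝ) + 12 = 4 * (2 - s) / s := by
      rw [e2]
      field_simp
      ring
    have e4 : 2 - s ≠ 0 := by linarith
    have e5 : 2 * (m : ℝ) + 1 / 2 = 1 / (2 * s) - 1 / 2 := by linarith
    rw [e5, e1, e3]
    field_simp
    ring
  have h2 : exp (-s) ≤ 1 - s + s ^ 2 / (2 - s) := by
    have h3 : exp (-s) ≤ 1 - s + s ^ 2 / 2 := by
      have h4 := Real.quadratic_le_exp_of_nonneg hs0.le
      rw [exp_neg]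
      have h5 : 0 < 1 + s + s ^ 2 / 2 := by positivity
      have h6 : (exp s)⁻¹ ≤ (1 + s + s ^ 2 / 2)⁻¹ := inv_anti₀ h5 h4
      refine h6.trans ?_
      rw [inv_eq_one_div, div_le_iff₀ h5]
      have : (1 - s + s ^ 2 / 2) * (1 + s + s ^ 2 / 2) = 1 + s ^ 4 / 4 := by ring
      rw [this]
      have : 0 ≤ s ^ 4 := by positivity
      linarith
    have h4 : s ^ 2 / 2 ≤ s ^ 2 / (2 - s) := by
      apply div_le_div_of_nonneg_left (by positivity) (by linarith) (by linarith)
    linarith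
  have h3 : -s ≤ log (1 - s + s ^ 2 / (2 - s)) := by
    rw [le_log_iff_exp_le ((exp_pos _).trans_le h2)]
    exact h2
  rw [h1, log_mul (by positivity) ((exp_pos _).trans_le h2).ne'] at h
  have h4 : 1 / (4 * (2 * (m : ℝ) + 1)) = s / 2 := by
    rw [hs]
    field_simp
    norm_num
  rw [h4]
  linarith

theorem log_19 : (29 / 10 : ℝ) ≤ log 19 := by
  have h : (29 : ℝ) ≤ 10 * log 19 := by
    have h1 : 10 * log (19 : ℝ) = log (19 ^ 10) := by
      rw [log_pow]
      norm_num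
    rw [h1, le_log_iff_exp_le (by positivity)]
    have h2 : exp (29 : ℝ) = exp 1 ^ 29 := by
      rw [← exp_nat_mul]
      norm_num
    rw [h2]
    have h3 : exp 1 ≤ 2.7182818286 := exp_one_lt_d9.le
    calc exp 1 ^ 29 ≤ (2.7182818286 : ℝ) ^ 29 := pow_le_pow_left₀ (exp_pos 1).le h3 29
      _ ≤ 19 ^ 10 := by norm_num
  linarith

/-- the sum of the logarithms -/
theorem sum_le2 (N : ℝ) (M : ℕ) (hN : 19 ≤ N) (hM : (M : ℝ) = N + 1) :
    ∑ L ∈ Ico 2 M, -log (1 - (N + 2 - L) * (N + 1 - L) / (N ^ 2 * L)) ≤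
      log (N + 2) - 3 / 2 + (log (N + 2) + 17 / 50) / (N + 2) := by
  have hN0 : 0 < N := by linarith
  have hM3 : 3 ≤ M := by
    have : (3 : ℝ) ≤ M := by rw [hM]; linarith
    exact_mod_cast this
  have h := partial_le N (by linarith) M hM3 (by rw [hM])
  rw [hM] at h
  refine h.trans ?_
  have h1 : log N + 2 / (N + 1) ≤ log (N + 2) := by
    have h2 := le_log_one_add_of_nonneg (x := 2 / N) (by positivity)
    have h3 : 2 * (2 / N) / (2 / N + 2) = 2 / (N + 1) := by
      have h4 : 2 / N + 2 = 2 * (N + 1) / N := by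
        field_simp
        ring
      rw [h4]
      field_simp
    have h4 : log (N + 2) = log N + log (1 + 2 / N) := by
      rw [← log_mul hN0.ne' (by positivity)]
      congr 1
      field_simp
    rw [h3] at h2
    linarith
  have h2 : log (N - 1 / 2) ≤ log N - 1 / (2 * N) := by
    have h3 : log (N - 1 / 2) = log N + log (1 - 1 / (2 * N)) := by
      rw [← log_mul hN0.ne' (by
        have : 1 / (2 * N) < 1 := by
          rw [div_lt_one (by positivity)]
          linarith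
        linarith)]
      congr 1
      field_simp
    have h4 : log (1 - 1 / (2 * N)) ≤ -(1 / (2 * N)) := by
      have h5 := log_le_sub_one_of_pos (x := 1 - 1 / (2 * N)) (by
        have : 1 / (2 * N) < 1 := by
          rw [div_lt_one (by positivity)]
          linarith
        linarith)
      linarith
    linarith
  have h3 := log_three_halves
  have h4 : 29 / 10 ≤ log N := log_19.trans (log_le_log (by norm_num) hN)
  have hc : 0 ≤ 1 / N - (2 * N + 1) / N ^ 3 := by
    have h6 : 1 / N - (2 * N + 1) / N ^ 3 = (N ^ 2 - 2 * N - 1) / N ^ 3 := by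
      field_simp
      ring
    rw [h6]
    apply div_nonneg _ (by positivity)
    nlinarith
  have e1 : N + 1 - 1 = N := by ring
  have e2 : N + 1 - 3 / 2 = N - 1 / 2 := by ring
  rw [e1, e2]
  have h5 : (1 / N - (2 * N + 1) / N ^ 3) * (1 + log (N - 1 / 2) - log (3 / 2)) ≤
      (1 / N - (2 * N + 1) / N ^ 3) * (1 + (log N - 1 / (2 * N)) - 81 / 200) := by
    apply mul_le_mul_of_nonneg_left _ hc
    linarith
  have h6 : (log N + 2 / (N + 1) + 17 / 50) / (N + 2) ≤ (log (N + 2) + 17 / 50) / (N + 2) := by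
    apply div_le_div_of_nonneg_right _ (by linarith)
    linarith
  have h7 : (5 / 3 - 1 / (N - 1 / 2)) / (2 * N ^ 2) ≤ (5 / 3) / (2 * N ^ 2) := by
    apply div_le_div_of_nonneg_right _ (by positivity)
    have : 0 ≤ 1 / (N - 1 / 2) := by
      apply one_div_nonneg.2
      linarith
    linarith
  have hkey : (log N + 2 / (N + 1) - 3 / 2 + (log N + 2 / (N + 1) + 17 / 50) / (N + 2)) -
      (log N - ((2 * N + 2) * (N + 1 - 2) - (N * (N + 1) / 2 - 1)) / N ^ 2 +
        ((2 * N + 2) ^ 2 * (N + 1 - 2) - (2 * N + 2) * (N * (N + 1) - 2) +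
          (N * (N + 1) * (2 * (N + 1) - 1) / 6 - 1)) / (2 * N ^ 4) +
        (N + 1 - 2) / N ^ 3 +
        (1 / N - (2 * N + 1) / N ^ 3) * (1 + (log N - 1 / (2 * N)) - 81 / 200) +
        (5 / 3) / (2 * N ^ 2)) =
      (47 * N ^ 5 - 1103 * N ^ 4 - 4315 * N ^ 3 + 1049 * N ^ 2 + 1814 * N) /
        (600 * N ^ 4 * (N + 1) * (N + 2)) + log N * ((5 * N + 2) / (N ^ 3 * (N + 2))) := by
    have : N + 1 ≠ 0 := by linarith
    have : N + 2 ≠ 0 := by linarith
    field_simp
    ring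
  have h8 : 0 ≤ (47 * N ^ 5 - 1103 * N ^ 4 - 4315 * N ^ 3 + 1049 * N ^ 2 + 1814 * N) /
        (600 * N ^ 4 * (N + 1) * (N + 2)) + 29 / 10 * ((5 * N + 2) / (N ^ 3 * (N + 2))) := by
    have e : (47 * N ^ 5 - 1103 * N ^ 4 - 4315 * N ^ 3 + 1049 * N ^ 2 + 1814 * N) /
        (600 * N ^ 4 * (N + 1) * (N + 2)) + 29 / 10 * ((5 * N + 2) / (N ^ 3 * (N + 2))) =
        (47 * N ^ 5 - 1103 * N ^ 4 + 4385 * N ^ 3 + 13229 * N ^ 2 + 5294 * N) /
        (600 * N ^ 4 * (N + 1) * (N + 2)) := by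
      have : N + 1 ≠ 0 := by linarith
      have : N + 2 ≠ 0 := by linarith
      field_simp
      ring
    rw [e]
    apply div_nonneg _ (by positivity)
    obtain ⟨t, rfl⟩ : ∃ t, N = t + 19 := ⟨N - 19, by ring⟩
    have ht : 0 ≤ t := by linarith
    have : 47 * (t + 19) ^ 5 - 1103 * (t + 19) ^ 4 + 4385 * (t + 19) ^ 3 + 13229 * (t + 19) ^ 2 +
        5294 * (t + 19) = 47 * t ^ 5 + 3362 * t ^ 4 + 90227 * t ^ 3 + 1097806 * t ^ 2 +
        5620478 * t + 7585560 := by ring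
    rw [this]
    positivity
  have h9 : 29 / 10 * ((5 * N + 2) / (N ^ 3 * (N + 2))) ≤
      log N * ((5 * N + 2) / (N ^ 3 * (N + 2))) :=
    mul_le_mul_of_nonneg_right h4 (by positivity)
  linarith

/-- the explicit chain bound is at most the main term plus `((1/2) log n - 2/25) / n` -/
theorem Ud_le2 (d : ℕ) (hd : Even d) (h20 : 20 ≤ d) :
    Ud d ≤ mainR (d + 1) + (log (d + 1) / 2 - 2 / 25) / (d + 1) := by
  obtain ⟨m, rfl⟩ := hd
  have hd20 : (20 : ℝ) ≤ ((m + m : ℕ) : ℝ) := by exact_mod_cast h20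
  set d : ℝ := ((m + m : ℕ) : ℝ) with hdr
  have hm : (m : ℝ) = d / 2 := by
    rw [hdr]
    push_cast
    ring
  have hp := pi_pos
  -- the sum
  have h1 : ∑ k ∈ Ico 2 (m + m), -log (1 - (k : ℝ) * (k - 1) / ((d - 1) ^ 2 * (d - k + 1))) =
      ∑ L ∈ Ico 2 (m + m), -log (1 - ((d - 1) + 2 - L) * ((d - 1) + 1 - L) /
        ((d - 1) ^ 2 * L)) := by
    have h2 := sum_Ico_reflect (fun L : ℕ => -log (1 - ((d - 1) + 2 - L) * ((d - 1) + 1 - L) /
        ((d - 1) ^ 2 * L))) 2 (m := m + m) (n := m + m + 1) (by omega)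
    have h3 : m + m + 1 + 1 - (m + m) = 2 := by omega
    have h4 : m + m + 1 + 1 - 2 = m + m := by omega
    rw [h3, h4] at h2
    rw [← h2]
    apply sum_congr rfl
    intro k hk
    rw [mem_Ico] at hk
    have h5 : ((m + m + 1 - k : ℕ) : ℝ) = d + 1 - k := by
      rw [Nat.cast_sub (by omega)]
      push_cast
      rw [hdr]
      push_cast
      ring
    rw [h5]
    have h6 : (d - 1 + 2 - (d + 1 - k)) * (d - 1 + 1 - (d + 1 - (k : ℝ))) = k * (k - 1) := by ring
    have h7 : d + 1 - (k : ℝ) = d - k + 1 := by ring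
    rw [h6, h7]
  have h2 := sum_le2 (d - 1) (m + m) (by linarith) (by rw [← hdr]; ring)
  -- the central binomial coefficient
  have h3 := log_cb_le3 m (by omega)
  have e0 : 2 * (m : ℝ) + 1 = d + 1 := by
    rw [hm]
    ring
  rw [e0] at h3
  -- conclusion
  unfold Ud
  rw [← hdr, h1]
  have hdiv : (m + m) / 2 = m := by omega
  rw [hdiv]
  have e1 : d - 1 + 2 = d + 1 := by ring
  rw [e1] at h2
  have h7 := mul_le_mul_of_nonneg_left h3 (by linarith : (0 : ℝ) ≤ d)
  have h6 : d * (1 / (4 * (d + 1))) = 1 / 4 - (1 / 4) / (d + 1) := by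
    have : d + 1 ≠ 0 := by linarith
    field_simp
    ring
  unfold mainR
  have h8 : (log (d + 1) + 17 / 50) / (d + 1) = log (d + 1) / (d + 1) + (17 / 50) / (d + 1) := by
    ring
  have h9 : (log (d + 1) / 2 - 2 / 25) / (d + 1) =
      log (d + 1) / (d + 1) / 2 - (2 / 25) / (d + 1) := by ring
  have h11 : (17 / 50 : ℝ) / (d + 1) / 2 - (1 / 4) / (d + 1) = -((2 / 25) / (d + 1)) := by
    ring
  rw [h9]
  rw [h8] at h2
  have h12 : (d + 1 - 1) / 2 * log (π * (d + 1) / 2) = d / 2 * log (π * (d + 1) / 2) := by ring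
  rw [h12]
  simp only [e1] at h2 ⊢
  rw [mul_add, h6] at h7
  linarith

end MP_a3e05c_co.CA
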