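import Pool.Agent.Lib.MP_a3e05c_co.S1.Hs
import Pool.Agent.Lib.MP_a3e05c_co.CA.Ud2

/-!
# EULER, block CA: the gain of a full neighbour at two deletions
-/

open Finset Real

namespace MP_a3e05c_co.CA

open KL NCS

/-- the gain of a full neighbour which loses two neighbours -/
noncomputable def g2 (d : ℕ) : ℝ := AA d - phi d (d - 2)

/-- `log F` of the vertex with one leaf -/
noncomputable def ft (d : ℕ) : ℝ := log (cb (d / 2)) + 1 / 2 * log (2 * ((d : ℝ) - 1) / d)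

theorem ffp_top {d : ℕ} (h : 2 ≤ d) : ffp d (d - 1) = ft d := by
  unfold ffp ft gg xx
  have h2 : (2 : ℝ) ≤ d := by exact_mod_cast h
  have e1 : ((d - 1 : ℕ) : ℝ) = d - 1 := by
    rw [Nat.cast_sub (by omega)]
    norm_num
  have hb : bb (d / 2) = cb (d / 2) := rfl
  rw [e1, hb]
  have h3 : (d : ℝ) - 1 ≠ 0 := by linarith
  have h4 : (d : ℝ) ≠ 0 := by linarith
  have e2 : 1 - ((d : ℝ) - 1) * (d - 1 - 1) / ((d - 1) ^ 2 * (d - 1 + 2 - (d - 1))) =
      (2 * ((d : ℝ) - 1) / d)⁻¹ := by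
    have h5 : (d : ℝ) - 1 + 2 - (d - 1) = 2 := by ring
    rw [h5]
    field_simp
    ring
  rw [e2, log_inv]
  ring

theorem AA_mul (d : ℕ) : ((d : ℝ) + 1) * AA d = log (PK (d + 1)) := by
  unfold AA
  have : (d : ℝ) + 1 ≠ 0 := by positivity
  field_simp

theorem sum_ffp {d : ℕ} (h : 2 ≤ d) : ∑ j ∈ range d, ffp d j = Ud d := by
  have h1 := TT_eq_Ud h
  unfold TT at h1
  rw [AA_mul] at h1
  linarith

theorem phi_top2 {d : ℕ} (h : 2 ≤ d) : ((d : ℝ) - 1) * phi d (d - 2) = Ud d - ft d := by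
  have h2 : (2 : ℝ) ≤ d := by exact_mod_cast h
  unfold phi
  rw [if_pos (by omega)]
  have e1 : ((d - 2 : ℕ) : ℝ) + 1 = d - 1 := by
    rw [Nat.cast_sub h]
    norm_num
    ring
  rw [e1]
  have h3 := sum_ffp h
  have e2 : d - 2 + 1 = d - 1 := by omega
  have e3 : d - 1 + 1 = d := by omega
  have h4 := sum_range_succ (fun j => ffp d j) (d - 1)
  rw [e3] at h4
  rw [e2]
  rw [ffp_top h] at h4
  have h5 : (d : ℝ) - 1 ≠ 0 := by linarith
  rw [mul_div_cancel₀ _ h5]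
  linarith

theorem g2_mul {d : ℕ} (h : 2 ≤ d) :
    ((d : ℝ) - 1) * g2 d = ((d : ℝ) - 1) * AA d - Ud d + ft d := by
  have h1 := phi_top2 h
  unfold g2
  linarith

/-- `2 A_d + (d - 1) g_d - f_d = - T_d` -/
theorem TT_g2 {d : ℕ} (h : 2 ≤ d) : 2 * AA d + ((d : ℝ) - 1) * g2 d - ft d = -TT d := by
  have h1 := g2_mul h
  have h2 := TT_eq_Ud h
  have h3 := AA_mul d
  linarith

/-- upper bound for `g_D + m (2 T_D / D)` from a lower bound `a` for `A_D` and an upper bound `u`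
for `Ud D` -/
theorem g2_add_le {D : ℕ} (h : 2 ≤ D) {a u m : ℝ} (ha : a ≤ AA D) (hu : Ud D ≤ u) (hm : 1 ≤ m) :
    g2 D + m * (2 * TT D / D) ≤
      (ft D - 2 * a - (u - (D + 1) * a)) / ((D : ℝ) - 1) + m * (2 * (u - (D + 1) * a) / D) := by
  have h2 : (2 : ℝ) ≤ D := by exact_mod_cast h
  have h1 := TT_g2 h
  have h3 := TT_eq_Ud h
  have h4 := AA_mul D
  have h5 : (D : ℝ) - 1 ≠ 0 := by linarith
  have h6 : (D : ℝ) ≠ 0 := by linarith
  have h7 : 0 < (D : ℝ) - 1 := by linarith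
  have h8 : 0 < (D : ℝ) := by linarith
  have e1 : g2 D = (ft D - 2 * AA D - TT D) / ((D : ℝ) - 1) := by
    rw [eq_div_iff h5]
    linarith
  set A := AA D with hA
  set T := TT D with hT
  have e2 : T = Ud D - (D + 1) * A := by linarith
  have h9 : T ≤ u - (D + 1) * a := by
    rw [e2]
    have : (D + 1 : ℝ) * a ≤ (D + 1) * A := mul_le_mul_of_nonneg_left ha (by linarith)
    linarith
  rw [e1, ← sub_nonneg]
  have e3 : (ft D - 2 * a - (u - (D + 1) * a)) / ((D : ℝ) - 1) +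
      m * (2 * (u - (D + 1) * a) / D) -
      ((ft D - 2 * A - T) / ((D : ℝ) - 1) + m * (2 * T / D)) =
      (2 * (A - a)) / ((D : ℝ) - 1) +
        ((u - (D + 1) * a) - T) * ((m * 2 * (D - 1) - D) / (D * (D - 1))) := by
    field_simp
    ring
  rw [e3]
  have h10 : 0 ≤ (2 * (A - a)) / ((D : ℝ) - 1) := by
    apply div_nonneg _ h7.le
    linarith
  have h11 : 0 ≤ (m * 2 * ((D : ℝ) - 1) - D) / (D * (D - 1)) := by
    apply div_nonneg _ (by positivity)
    nlinarith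
  have h12 : 0 ≤ ((u - (D + 1) * a) - T) * ((m * 2 * ((D : ℝ) - 1) - D) / (D * (D - 1))) :=
    mul_nonneg (by linarith) h11
  linarith

/-- lower bound for `g_d` from a lower bound `a` for `A_d` and an upper bound `u` for `Ud d` -/
theorem le_g2 {d : ℕ} (h : 2 ≤ d) {a u : ℝ} (ha : a ≤ AA d) (hu : Ud d ≤ u) :
    (ft d - 2 * a - (u - (d + 1) * a)) / ((d : ℝ) - 1) ≤ g2 d := by
  have h2 : (2 : ℝ) ≤ d := by exact_mod_cast h
  have h1 := g2_mul h
  have h7 : 0 < (d : ℝ) - 1 := by linarith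
  rw [div_le_iff₀ h7]
  have h3 : ((d : ℝ) - 1) * a ≤ (d - 1) * AA d := mul_le_mul_of_nonneg_left ha h7.le
  linarith

end MP_a3e05c_co.CA
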