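import Pool.Agent.Lib.MP_a3e05c_co.CA.Closed

/-!
# EULER, block CA: the gain at two deletions decreases with the degree
-/

open Finset Real

namespace MP_a3e05c_co.CA

open KL NCS

/-- there are at most `24` regular tournaments on five vertices -/
theorem RT_5_le : KL.RT 5 ≤ 24 := by
  unfold KL.RT
  decide +kernel

theorem g2_two : g2 2 = log 2 / 3 := by
  have h1 := g2_mul (d := 2) le_rfl
  have h2 := AA_mul 2
  have hr := row_2
  have hRT : KL.RT 3 = 2 := by
    apply le_antisymm
    · unfold KL.RT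
      decide +kernel
    · exact RTK.RT_3
  have e1 : PK (2 + 1) = 1 / 4 := by
    unfold PK
    norm_num
    rw [hRT]
    norm_num
  have e2 : log (PK (2 + 1)) = -(2 * log 2) := by
    rw [e1, one_div, log_inv]
    have : (4 : ℝ) = 2 ^ 2 := by norm_num
    rw [this, log_pow]
    norm_num
  have e3 : Ud 2 = -(2 * log 2) := by
    unfold Ud
    have : cb (2 / 2) = (2 : ℝ)⁻¹ := by
      unfold cb
      norm_num [Nat.centralBinom]
    rw [this, log_inv]
    norm_num
  have e4 : ft 2 = -log 2 := by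
    unfold ft
    have : cb (2 / 2) = (2 : ℝ)⁻¹ := by
      unfold cb
      norm_num [Nat.centralBinom]
    rw [this, log_inv]
    norm_num
  rw [e2] at h2
  rw [e3, e4] at h1
  norm_num at h1 h2
  linarith

theorem g2_four_le : g2 4 ≤ g2 2 := by
  have h1 : ((4 : ℕ) : ℝ) - 1 = 3 := by norm_num
  have h2 := phi_top2 (d := 4) (by norm_num)
  have h3 := AA_mul 4
  -- `phi 4 2 ≥ log (3 / 8) + (1 / 6) log (27 / 25)`
  have h4 : ((4 : ℕ) : ℝ) * log (cb 2) + 1 / 2 * log (27 / 25) + log (cb 2) ≤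
      ((4 : ℕ) : ℝ) * log (cb 2) + 1 / 2 * log (27 / 25) + log (cb 2) := le_rfl
  have e1 : cb 2 = 3 / 8 := by
    unfold cb
    have : Nat.centralBinom 2 = 6 := by decide
    rw [this]
    norm_num
  have e2 : Ud 4 - ft 4 = 3 * log (3 / 8) + 1 / 2 * log (27 / 25) := by
    unfold Ud ft
    have e3 : Ico 2 4 = ({2, 3} : Finset ℕ) := by decide
    have e4 : (4 : ℕ) / 2 = 2 := by norm_num
    rw [e3, e4, e1, sum_pair (by norm_num)]
    push_cast
    have e5 : -log (1 - (2 : ℝ) * (2 - 1) / ((4 - 1) ^ 2 * (4 - 2 + 1))) = log (27 / 25) := by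
      rw [← log_inv]
      norm_num
    have e6 : -log (1 - (3 : ℝ) * (3 - 1) / ((4 - 1) ^ 2 * (4 - 3 + 1))) = log (3 / 2) := by
      rw [← log_inv]
      norm_num
    have e7 : log (2 * ((4 : ℝ) - 1) / 4) = log (3 / 2) := by norm_num
    rw [e5, e6, e7]
    ring
  rw [e2, h1] at h2
  have h5 : log (PK (4 + 1)) ≤ log (3 / 128) := by
    have h6 : PK (4 + 1) ≤ 3 / 128 := by
      unfold PK
      have h7 : (KL.RT 5 : ℝ) ≤ 24 := by exact_mod_cast RT_5_le
      norm_num
      rw [div_le_iff₀ (by norm_num)]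
      linarith
    apply log_le_log _ h6
    unfold PK
    have h8 : (24 : ℝ) ≤ KL.RT 5 := by exact_mod_cast RTK.RT_5
    have h9 : (0 : ℝ) < KL.RT (4 + 1) := by
      have : KL.RT (4 + 1) = KL.RT 5 := rfl
      rw [this]
      linarith
    positivity
  have h6 : g2 4 = AA 4 - phi 4 2 := rfl
  rw [g2_two, h6]
  have h7 : (4 : ℕ) - 2 = 2 := by norm_num
  rw [h7] at h2
  -- logarithms
  have hS : (NUM.S : ℝ) = 10 ^ 15 := by norm_num [NUM.S]
  have a1 := NUM.lgL_le (a := 128) (b := 3) (by norm_num) (by norm_num)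
  have a2 := NUM.le_lgU (a := 8) (b := 3) (by norm_num) (by norm_num)
  have a3 := NUM.lgL_le (a := 27) (b := 25) (by norm_num) (by norm_num)
  have b1 : 3753 * 10 ^ 12 ≤ NUM.lgL 128 3 := by decide +kernel
  have b2 : NUM.lgU 8 3 ≤ 981 * 10 ^ 12 := by decide +kernel
  have b3 : 76 * 10 ^ 12 ≤ NUM.lgL 27 25 := by decide +kernel
  have b1' : (3753 * 10 ^ 12 : ℝ) ≤ NUM.lgL 128 3 := by exact_mod_cast b1
  have b2' : (NUM.lgU 8 3 : ℝ) ≤ 981 * 10 ^ 12 := by exact_mod_cast b2
  have b3' : (76 * 10 ^ 12 : ℝ) ≤ NUM.lgL 27 25 := by exact_mod_cast b3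
  rw [hS] at a1 a2 a3
  push_cast at a1 a2 a3
  have c1 : log ((3 : ℝ) / 128) = -log (128 / 3) := by
    rw [← log_inv]
    norm_num
  have c2 : log ((3 : ℝ) / 8) = -log (8 / 3) := by
    rw [← log_inv]
    norm_num
  rw [c1] at h5
  rw [c2] at h2
  have c3 := log_two_gt_d9
  norm_num at c3
  norm_num at h3
  norm_num at h5
  linarith

/-- **The gain of a full neighbour at two deletions decreases with the degree.** -/
theorem g2_anti {a b : ℕ} (ha : Even a) (hb : Even b) (h2 : 2 ≤ a) (hab : a ≤ b) :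
    g2 b ≤ g2 a := by
  have hTT : 0 ≤ TT b := by
    rcases Nat.lt_or_ge b 4 with h | h
    · obtain ⟨k, hk⟩ := hb
      have : b = 2 := by omega
      subst this
      have h1 := TT_eq_Ud (d := 2) le_rfl
      have h2' := g2_two
      have h3 := TT_g2 (d := 2) le_rfl
      have h4 := AA_mul 2
      have e4 : ft 2 = -log 2 := by
        unfold ft
        have : cb (2 / 2) = (2 : ℝ)⁻¹ := by
          unfold cb
          norm_num [Nat.centralBinom]
        rw [this, log_inv]
        norm_num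
      have e3 : Ud 2 = -(2 * log 2) := by
        unfold Ud
        have : cb (2 / 2) = (2 : ℝ)⁻¹ := by
          unfold cb
          norm_num [Nat.centralBinom]
        rw [this, log_inv]
        norm_num
      rw [e4, h2'] at h3
      rw [e3] at h1
      norm_num at h3 h4
      linarith
    · rw [TT_eq_Ud (by omega)]
      have := PK_le_Ud hb h
      linarith
  rcases Nat.lt_or_ge b 8 with h8 | h8
  · obtain ⟨i, rfl⟩ := ha
    obtain ⟨j, rfl⟩ := hb
    have h64 : g2 6 ≤ g2 4 := by
      have r := row_6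
      have h1 := g2_add_le (D := 6) (by norm_num) r.a r.u (m := 1) le_rfl
      have h3 := le_g2_tab 4 (by decide) (by norm_num) (by norm_num)
      have hT : 0 ≤ TT 6 := by
        rw [TT_eq_Ud (by omega)]
        have := PK_le_Ud (d := 6) (by decide) (by norm_num)
        linarith
      have h4 := r.f
      norm_num [alT, upT, flT, fuT] at h1 h3 h4 ⊢
      linarith
    have h42 := g2_four_le
    have hi : i = 1 ∨ i = 2 ∨ i = 3 := by omega
    have hj : j = 1 ∨ j = 2 ∨ j = 3 := by omega
    rcases hi with rfl | rfl | rfl <;> rcases hj with rfl | rfl | rfl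
    · exact le_rfl
    · exact h42
    · exact h64.trans h42
    · omega
    · exact le_rfl
    · exact h64
    · omega
    · omega
    · exact le_rfl
  · obtain ⟨m, hm⟩ : ∃ m, b = a + 2 * m := by
      obtain ⟨i, rfl⟩ := ha
      obtain ⟨j, rfl⟩ := hb
      exact ⟨j - i, by omega⟩
    have h1 := g2_chain (D := b) (m := m) hb h8 (by omega)
    have e1 : b - 2 * m = a := by omega
    rw [e1] at h1
    have h3 : 0 ≤ (m : ℝ) * (2 * TT b / b) := by positivity
    linarith

/-- the same, unfolded -/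
theorem gAnti : ∀ a b : ℕ, Even a → Even b → 2 ≤ a → a ≤ b →
    AA b - phi b (b - 2) ≤ AA a - phi a (a - 2) :=
  fun _ _ ha hb h2 hab => g2_anti ha hb h2 hab

end MP_a3e05c_co.CA
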