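import Pool.Agent.Lib.MP_a3e05c_co.CA.Closed
import Pool.Agent.Lib.MP_a3e05c_co.C7.Merge
import Pool.Agent.Lib.MP_a3e05c_co.IRR.Case234

/-!
# EULER, block CA: the input of the case C7
-/

open Finset Real

namespace MP_a3e05c_co.CA

open KL NCS

/-- the closed components with many missing edges, from the two scalar facts needed when there is
only one vertex of degree `n - 1` -/
theorem many_of (hA : HsAnti) (hS5 : ∀ D : ℕ, Even D → 4 ≤ D → 0 ≤ AA D + D * KL.hs (D - 2)) :
    C7.Many := by
  intro V E _ _ _ _ hd hs hev C n q hC hn hodd h9 hsum hq hw hI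
  by_cases htw : 2 ≤ (C.filter fun v => deg hd v = n - 1).card
  · refine closed_ge hs hev hC hn hodd h9 hsum hq htw fun W hW hW2 _ => hI W hW ?_
    rw [← card_pos, hW2]
    norm_num
  obtain ⟨w, hwC, hwd⟩ := hw
  have hdC : deg hd w = C.card - 1 := by rw [hwd, hn]
  have hone : ∀ v ∈ C, v ≠ w → deg hd v ≠ n - 1 := by
    intro v hv hvw hvd
    apply htw
    have h1 : ({w, v} : Finset V) ⊆ C.filter fun v => deg hd v = n - 1 := by
      intro x hx
      rw [mem_insert, mem_singleton] at hx
      rw [mem_filter]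
      rcases hx with rfl | rfl
      · exact ⟨hwC, hwd⟩
      · exact ⟨hv, hvd⟩
    have h2 := card_le_card h1
    rwa [card_pair hvw.symm] at h2
  have hdle : ∀ v ∈ C, deg hd v ≤ n - 1 := by
    intro v hv
    rw [← hC v hv, ← card_nb hs]
    have h1 : nb hd C v ⊆ C.erase v := by
      intro u hu
      rw [mem_nb] at hu
      rw [mem_erase]
      exact ⟨(Adj.ne hs hu.2), hu.1⟩
    have h2 := card_le_card h1
    rwa [card_erase_of_mem hv, hn] at h2
  have hk : ∀ v ∈ C \ {w}, kk hd (C \ {w}) v + 1 = deg hd v := by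
    intro v hv
    rw [mem_sdiff, mem_singleton] at hv
    have h1 := NUM.kk_sdiff hs hC {w} (singleton_subset_iff.2 hwC) (fun x hx => by
      rw [mem_singleton] at hx
      rw [hx, hdC]) v hv.1 (by rw [mem_singleton]; exact hv.2)
    rwa [card_singleton] at h1
  have h1 := hI {w} (singleton_subset_iff.2 hwC) (singleton_nonempty w)
  refine (PA_mono (hd := hd) (sdiff_subset : C \ {w} ⊆ C)).trans (h1.trans ?_)
  apply Real.exp_le_exp.2
  obtain ⟨D, hD⟩ : ∃ D, n = D + 1 := ⟨n - 1, by omega⟩
  subst hD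
  have hDe : Even D := by
    rcases Nat.even_or_odd D with h | h
    · exact h
    · exact absurd hodd (Nat.not_odd_iff_even.2 h.add_one)
  have e1 : D + 1 - 1 = D := by omega
  rw [e1] at hwd hone hdle
  have h2 : ∀ v ∈ C \ {w}, phi (deg hd v) (kk hd (C \ {w}) v) ≤
      AA (deg hd v) - KL.hs (D - 2) := by
    intro v hv
    have h3 := hk v hv
    rw [mem_sdiff, mem_singleton] at hv
    have h4 := hdle v hv.1
    have h5 := hone v hv.1 hv.2
    have h6 : kk hd (C \ {w}) v = deg hd v - 1 := by omega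
    rw [h6]
    have h7 : KL.hs (D - 2) ≤ KL.hs (deg hd v) := by
      apply hA (deg hd v) (D - 2) (hev v)
      · obtain ⟨a, ha⟩ := hDe
        exact ⟨a - 1, by omega⟩
      · obtain ⟨a, ha⟩ := hev v
        omega
      · obtain ⟨a, ha⟩ := hev v
        obtain ⟨b, hb⟩ := hDe
        omega
    unfold KL.hs at h7 ⊢
    linarith
  have h3 := sum_le_sum h2
  refine h3.trans ?_
  rw [sum_sub_distrib, sum_const, card_sdiff_of_subset (singleton_subset_iff.2 hwC),
    card_singleton, hn, e1, nsmul_eq_mul]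
  have h4 : ∑ v ∈ C, AA (deg hd v) = ∑ v ∈ C \ {w}, AA (deg hd v) + AA (deg hd w) := by
    rw [← sum_sdiff (singleton_subset_iff.2 hwC), sum_singleton]
  rw [h4, hwd]
  have h5 := hS5 D hDe (by omega)
  linarith

end MP_a3e05c_co.CA
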