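import Pool.Agent.Lib.MP_a3e05c_co.CA.G2

/-!
# EULER, block CA: the one-step inequality in closed form, `d ≥ 24`
-/

open Finset Real

namespace MP_a3e05c_co.CA

open KL NCS

theorem log_pi_ge : (11446 / 10000 : ℝ) ≤ log π := by
  rw [le_log_iff_exp_le pi_pos]
  have h1 : exp (11446 / 10000 : ℝ) = exp 1 * exp (1446 / 10000) := by
    rw [← exp_add]
    norm_num
  have h2 : exp (1446 / 10000 : ℝ) ≤ 11556 / 10000 := by
    have h := Real.exp_bound' (x := 1446 / 10000) (by norm_num) (by norm_num) (n := 4)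
      (by norm_num)
    refine h.trans ?_
    simp [Finset.sum_range_succ, Nat.factorial]
    norm_num
  have h3 : exp 1 ≤ 2.7182818286 := exp_one_lt_d9.le
  have h4 : (3.1415 : ℝ) < π := pi_gt_d4
  rw [h1]
  have h5 : exp 1 * exp (1446 / 10000 : ℝ) ≤ 2.7182818286 * (11556 / 10000) :=
    mul_le_mul h3 h2 (exp_pos _).le (by norm_num)
  have h6 : (2.7182818286 : ℝ) * (11556 / 10000) ≤ 3.1415 := by norm_num
  linarith

theorem log_27_le : log 27 ≤ (32959 / 10000 : ℝ) := by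
  rw [log_le_iff_le_exp (by norm_num)]
  have h1 : exp (32959 / 10000 : ℝ) = exp 1 ^ 3 * exp (2959 / 10000) := by
    rw [← exp_nat_mul, ← exp_add]
    norm_num
  have h2 : (13443 / 10000 : ℝ) ≤ exp (2959 / 10000) := by
    have h := Real.sum_le_exp_of_nonneg (x := 2959 / 10000) (by norm_num) 5
    refine le_trans ?_ h
    simp [Finset.sum_range_succ, Nat.factorial]
    norm_num
  have h3 : 2.7182818283 ≤ exp 1 := exp_one_gt_d9.le
  rw [h1]
  have h4 : (2.7182818283 : ℝ) ^ 3 ≤ exp 1 ^ 3 := pow_le_pow_left₀ (by norm_num) h3 3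
  calc (27 : ℝ) ≤ 2.7182818283 ^ 3 * (13443 / 10000) := by norm_num
    _ ≤ exp 1 ^ 3 * exp (2959 / 10000) := mul_le_mul h4 h2 (by norm_num) (by positivity)

theorem log_add_three_le {x : ℝ} (hx : 24 ≤ x) :
    log (x + 3) ≤ 32959 / 10000 + (x - 24) / 27 := by
  have h1 : x + 3 = 27 * ((x + 3) / 27) := by ring
  rw [h1, log_mul (by norm_num) (by positivity)]
  have h2 := log_le_sub_one_of_pos (x := (x + 3) / 27) (by positivity)
  have h3 := log_27_le
  have h4 : (x + 3) / 27 - 1 = (x - 24) / 27 := by ring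
  linarith

/-- `log ((N + 1) / (N - 1)) ≤ 2 / N + 2 / (N (N ^ 2 - 1))` -/
theorem log_ratio_le {N : ℝ} (hN : 1 < N) :
    log ((N + 1) / (N - 1)) ≤ 2 / N + 2 / (N * (N ^ 2 - 1)) := by
  have h := Real.log_div_le_sum_range_add (x := 1 / N) (by positivity)
    (by rw [div_lt_one (by linarith)]; exact hN) 1
  have h0 : N ≠ 0 := by linarith
  have h1 : N - 1 ≠ 0 := by linarith
  have h2 : N ^ 2 - 1 ≠ 0 := by nlinarith
  have e1 : (1 + 1 / N) / (1 - 1 / N) = (N + 1) / (N - 1) := by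
    have : 1 - 1 / N = (N - 1) / N := by field_simp
    rw [this]
    have : 1 + 1 / N = (N + 1) / N := by field_simp
    rw [this]
    field_simp
  rw [e1] at h
  simp only [sum_range_one] at h
  have e2 : (1 / N) ^ (2 * 1 + 1) / (1 - (1 / N) ^ 2) = 1 / (N * (N ^ 2 - 1)) := by
    have : 1 - (1 / N) ^ 2 = (N ^ 2 - 1) / N ^ 2 := by field_simp
    rw [this, div_pow, one_pow]
    field_simp
  rw [e2] at h
  norm_num at h
  have e3 : 2 / N + 2 / (N * (N ^ 2 - 1)) = 2 * (N⁻¹ + 1 / (N * (N ^ 2 - 1))) := by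
    field_simp
  rw [e3]
  norm_num
  linarith

/-- the rational inequality -/
theorem os_rat {x : ℝ} (hx : 24 ≤ x) :
    0 ≤ 11446 / 10000 * ((x - 1) / (x + 3)) + 6931 / 10000 * (4 / (x + 3)) -
      (32959 / 10000 + (x - 24) / 27) * ((5 * x + 13) / ((x + 2) * (x + 3))) -
      (x - 5 / 2) * (2 / (x + 2) + 2 / ((x + 2) * (x + 1) * (x + 3))) -
      (x + 1) / 2 * (2 / (2 * x - 1) + 2 / ((2 * x - 1) * (4 * x * (x - 1)))) +
      3 / 2 * (x - 1) * (2 / (2 * x + 3)) + 1 - (x - 1) / (x + 3) -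
      2 * (9 / 100) / (x + 1) + 2 * (x - 1) * (9 / 100) / (x + 3) ^ 2 +
      17 / 100 * (1 - (x - 1) / (x + 3) + 2 * (x ^ 2 - 1) / ((x + 2) * (x + 3))) := by
  have h0 : x ≠ 0 := by linarith
  have h1 : x - 1 ≠ 0 := by linarith
  have h2 : x + 1 ≠ 0 := by linarith
  have h3 : x + 2 ≠ 0 := by linarith
  have h4 : x + 3 ≠ 0 := by linarith
  have h5 : 2 * x - 1 ≠ 0 := by linarith
  have h5' : x * 2 - 1 ≠ 0 := by linarith
  have h6 : 2 * x + 3 ≠ 0 := by linarith
  have e : 11446 / 10000 * ((x - 1) / (x + 3)) + 6931 / 10000 * (4 / (x + 3)) -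
      (32959 / 10000 + (x - 24) / 27) * ((5 * x + 13) / ((x + 2) * (x + 3))) -
      (x - 5 / 2) * (2 / (x + 2) + 2 / ((x + 2) * (x + 1) * (x + 3))) -
      (x + 1) / 2 * (2 / (2 * x - 1) + 2 / ((2 * x - 1) * (4 * x * (x - 1)))) +
      3 / 2 * (x - 1) * (2 / (2 * x + 3)) + 1 - (x - 1) / (x + 3) -
      2 * (9 / 100) / (x + 1) + 2 * (x - 1) * (9 / 100) / (x + 3) ^ 2 +
      17 / 100 * (1 - (x - 1) / (x + 3) + 2 * (x ^ 2 - 1) / ((x + 2) * (x + 3))) =
      (323368 * x ^ 8 - 3479628 * x ^ 7 - 38636378 * x ^ 6 - 90968877 * x ^ 5 -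
        20013488 * x ^ 4 + 87301578 * x ^ 3 + 18814698 * x ^ 2 - 14496273 * x - 3645000) /
      (270000 * ((x + 1) * (x + 2) * (x + 3) ^ 2 * (2 * x - 1) * (2 * x + 3) * x * (x - 1))) := by
    field_simp
    ring
  rw [e]
  apply div_nonneg
  · obtain ⟨t, rfl⟩ : ∃ t, x = t + 24 := ⟨x - 24, by ring⟩
    have ht : 0 ≤ t := by linarith
    have : 323368 * (t + 24) ^ 8 - 3479628 * (t + 24) ^ 7 - 38636378 * (t + 24) ^ 6 -
        90968877 * (t + 24) ^ 5 - 20013488 * (t + 24) ^ 4 + 87301578 * (t + 24) ^ 3 +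
        18814698 * (t + 24) ^ 2 - 14496273 * (t + 24) - 3645000 =
        323368 * t ^ 8 + 58607028 * t ^ 7 + 4592065222 * t ^ 6 + 202589209395 * t ^ 5 +
        5481664113592 * t ^ 4 + 92578039076682 * t ^ 3 + 943540338254778 * t ^ 2 +
        5212430793088335 * t + 11522319373130400 := by ring
    rw [this]
    positivity
  · have : 0 < x - 1 := by linarith
    have : 0 < 2 * x - 1 := by linarith
    positivity

/-- lower bound for `AA d` -/
noncomputable def ah (d : ℕ) : ℝ :=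
  (mainR ((d : ℝ) + 1) + 9 / 100 / ((d : ℝ) + 1)) / ((d : ℝ) + 1)

/-- upper bound for `Ud d` -/
noncomputable def uh (d : ℕ) : ℝ :=
  mainR ((d : ℝ) + 1) + (log ((d : ℝ) + 1) / 2 - 2 / 25) / ((d : ℝ) + 1)

/-- upper bound for `TT d` -/
noncomputable def tau (d : ℕ) : ℝ := (log ((d : ℝ) + 1) / 2 - 17 / 100) / ((d : ℝ) + 1)

/-- lower bound for `g2 d` -/
noncomputable def gh (d : ℕ) : ℝ := (ft d - 2 * ah d - tau d) / ((d : ℝ) - 1)

theorem uh_sub (d : ℕ) : uh d - ((d : ℝ) + 1) * ah d = tau d := by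
  unfold uh ah tau
  have : (d : ℝ) + 1 ≠ 0 := by positivity
  field_simp
  ring

/-- the exact form of the one-step inequality -/
theorem os_eq {x b p q l δ a1 a2 : ℝ} (hx : 24 ≤ x) :
    (b + 1 / 2 * (q + a1) - 2 * (((l - δ) / 2 - 1 / 2 - (x + 1 - 1) / 2 * (p + (l - δ) - q) +
      9 / 100 / (x + 1)) / (x + 1)) - ((l - δ) / 2 - 17 / 100) / (x + 1)) / (x - 1) -
    ((b - a2 + 1 / 2 * (q - a2) - 2 * ((l / 2 - 1 / 2 - (x + 2 + 1 - 1) / 2 * (p + l - q) +
      9 / 100 / (x + 2 + 1)) / (x + 2 + 1)) - (l / 2 - 17 / 100) / (x + 2 + 1)) / (x + 2 - 1) +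
      2 * ((l / 2 - 17 / 100) / (x + 2 + 1)) / (x + 2)) =
    ((2 * b + (p + (l - δ) - q)) + p * ((x - 1) / (x + 3)) + q * (4 / (x + 3)) -
      l * ((5 * x + 13) / ((x + 2) * (x + 3))) - (x - 5 / 2) * δ + (x + 1) / 2 * a1 +
      3 / 2 * (x - 1) * a2 + 1 - (x - 1) / (x + 3) -
      2 * (9 / 100) / (x + 1) + 2 * (x - 1) * (9 / 100) / (x + 3) ^ 2 +
      17 / 100 * (1 - (x - 1) / (x + 3) + 2 * (x ^ 2 - 1) / ((x + 2) * (x + 3)))) /
      ((x + 1) * (x - 1)) := by
  have h1 : x - 1 ≠ 0 := by linarith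
  have h2 : x + 1 ≠ 0 := by linarith
  have h3 : x + 2 ≠ 0 := by linarith
  have h4 : x + 3 ≠ 0 := by linarith
  have e1 : x + 2 + 1 = x + 3 := by ring
  have e2 : x + 2 - 1 = x + 1 := by ring
  rw [e1, e2]
  field_simp
  ring

theorem ft_two_mul (k : ℕ) (hk : 1 ≤ k) : ft (2 * k) =
    log (cb k) + 1 / 2 * (log 2 + log ((2 * (k : ℝ) - 1) / (2 * k))) := by
  have hk1 : (1 : ℝ) ≤ k := by exact_mod_cast hk
  unfold ft
  have e1 : 2 * k / 2 = k := by omega
  rw [e1]
  push_cast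
  have e2 : 2 * (2 * (k : ℝ) - 1) / (2 * k) = 2 * ((2 * (k : ℝ) - 1) / (2 * k)) := by ring
  have h1 : (2 * (k : ℝ) - 1) / (2 * k) ≠ 0 := by
    apply div_ne_zero <;> linarith
  rw [e2, log_mul (by norm_num) h1]

/-- **One-step inequality.** -/
theorem one_step (k : ℕ) (hk : 12 ≤ k) :
    gh (2 * k + 2) + 2 * tau (2 * k + 2) / ((2 * k + 2 : ℕ) : ℝ) ≤ gh (2 * k) := by
  have hk1 : (12 : ℝ) ≤ k := by exact_mod_cast hk
  obtain ⟨x, hx⟩ : ∃ x : ℝ, x = 2 * (k : ℝ) := ⟨_, rfl⟩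
  have hx24 : 24 ≤ x := by linarith
  have hp := pi_pos
  -- the logarithms
  have f1 := ft_two_mul k (by omega)
  have f2 := ft_two_mul (k + 1) (by omega)
  have e0 : 2 * (k + 1) = 2 * k + 2 := by ring
  rw [e0] at f2
  push_cast at f2
  have c1 : ((2 * k : ℕ) : ℝ) = x := by
    push_cast
    linarith
  have c2 : ((2 * k + 2 : ℕ) : ℝ) = x + 2 := by
    push_cast
    linarith
  have c3 : 2 * (k : ℝ) = x := hx.symm
  have c4 : 2 * ((k : ℝ) + 1) = x + 2 := by linarith
  rw [c3] at f1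
  rw [c4] at f2
  have c5 : x + 2 - 1 = x + 1 := by ring
  rw [c5] at f2
  have g1 : log (cb (k + 1)) = log (cb k) - log ((x + 2) / (x + 1)) := by
    rw [cb_succ, log_mul (cb_pos k).ne' (by positivity)]
    have e1 : (2 * (k : ℝ) + 1) / (2 * k + 2) = ((x + 2) / (x + 1))⁻¹ := by
      rw [c3, inv_div]
    rw [e1, log_inv]
    ring
  have g2' : log ((x + 1) / (x + 2)) = -log ((x + 2) / (x + 1)) := by
    rw [← log_inv, inv_div]
  rw [g1, g2'] at f2
  set b := log (cb k) with hb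
  set a1 := log ((x - 1) / x) with ha1
  set a2 := log ((x + 2) / (x + 1)) with ha2
  set l := log (x + 3) with hl
  obtain ⟨δ, hδ⟩ : ∃ δ, δ = log ((x + 3) / (x + 1)) := ⟨_, rfl⟩
  have hl' : log (x + 1) = l - δ := by
    rw [hδ, log_div (by linarith) (by linarith)]
    ring
  have hm1 : log (π * (x + 1) / 2) = log π + (l - δ) - log 2 := by
    rw [log_div (by positivity) (by norm_num), log_mul hp.ne' (by linarith), hl']
  have hm2 : log (π * (x + 2 + 1) / 2) = log π + l - log 2 := by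
    have : x + 2 + 1 = x + 3 := by ring
    rw [this, log_div (by positivity) (by norm_num), log_mul hp.ne' (by linarith)]
  have hl3 : log (x + 2 + 1) = l := by
    rw [hl]
    congr 1
    ring
  -- the identity
  rw [← sub_nonneg]
  unfold gh ah tau mainR
  rw [f1, f2, c1, c2, hm1, hm2, hl', hl3]
  have hid := os_eq (x := x) (b := b) (p := log π) (q := log 2) (l := l) (δ := δ) (a1 := a1)
    (a2 := a2) hx24
  have e3 : b - a2 + 1 / 2 * (log 2 + -a2) = b - a2 + 1 / 2 * (log 2 - a2) := by ring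
  rw [e3, hid]
  apply div_nonneg
  · -- the bounds
    have h1 : 0 ≤ 2 * b + (log π + (l - δ) - log 2) := by
      have h := le_log_cb k
      rw [← hm1]
      have e4 : π * ((k : ℝ) + 1 / 2) = π * (x + 1) / 2 := by
        rw [hx]
        ring
      rw [e4] at h
      linarith
    have h2 : 11446 / 10000 * ((x - 1) / (x + 3)) ≤ log π * ((x - 1) / (x + 3)) :=
      mul_le_mul_of_nonneg_right log_pi_ge (div_nonneg (by linarith) (by linarith))
    have h3 : 6931 / 10000 * (4 / (x + 3)) ≤ log 2 * (4 / (x + 3)) := by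
      apply mul_le_mul_of_nonneg_right _ (by positivity)
      have := log_two_gt_d9
      norm_num at this ⊢
      linarith
    have h4 : l * ((5 * x + 13) / ((x + 2) * (x + 3))) ≤
        (32959 / 10000 + (x - 24) / 27) * ((5 * x + 13) / ((x + 2) * (x + 3))) :=
      mul_le_mul_of_nonneg_right (log_add_three_le hx24) (by positivity)
    have h5 : (x - 5 / 2) * δ ≤
        (x - 5 / 2) * (2 / (x + 2) + 2 / ((x + 2) * (x + 1) * (x + 3))) := by
      apply mul_le_mul_of_nonneg_left _ (by linarith)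
      have h := log_ratio_le (N := x + 2) (by linarith)
      have e5 : (x + 2 + 1) / (x + 2 - 1) = (x + 3) / (x + 1) := by
        congr 1 <;> ring
      have e6 : (x + 2) * ((x + 2) ^ 2 - 1) = (x + 2) * (x + 1) * (x + 3) := by ring
      rw [e5, e6, ← hδ] at h
      exact h
    have h6 : -((x + 1) / 2 * (2 / (2 * x - 1) + 2 / ((2 * x - 1) * (4 * x * (x - 1))))) ≤
        (x + 1) / 2 * a1 := by
      have h := log_ratio_le (N := 2 * x - 1) (by linarith)
      have e5 : (2 * x - 1 + 1) / (2 * x - 1 - 1) = ((x - 1) / x)⁻¹ := by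
        have h7 : x - 1 ≠ 0 := by linarith
        have h8 : 2 * x - 1 - 1 ≠ 0 := by linarith
        rw [inv_div]
        rw [div_eq_div_iff h8 h7]
        ring
      have e6 : (2 * x - 1) * ((2 * x - 1) ^ 2 - 1) = (2 * x - 1) * (4 * x * (x - 1)) := by ring
      rw [e5, e6, log_inv, ← ha1] at h
      have h9 := mul_le_mul_of_nonneg_left h (by linarith : 0 ≤ (x + 1) / 2)
      linarith
    have h7 : 3 / 2 * (x - 1) * (2 / (2 * x + 3)) ≤ 3 / 2 * (x - 1) * a2 := by
      apply mul_le_mul_of_nonneg_left _ (by linarith)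
      have h := le_log_one_add_of_nonneg (x := 1 / (x + 1)) (by positivity)
      have e5 : 2 * (1 / (x + 1)) / (1 / (x + 1) + 2) = 2 / (2 * x + 3) := by
        have h8 : x + 1 ≠ 0 := by linarith
        have h9 : 2 * x + 3 ≠ 0 := by linarith
        have h10 : 1 / (x + 1) + 2 = (2 * x + 3) / (x + 1) := by
          field_simp
          ring
        rw [h10]
        field_simp
      have e6 : 1 + 1 / (x + 1) = (x + 2) / (x + 1) := by
        have h8 : x + 1 ≠ 0 := by linarith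
        field_simp
        ring
      rw [e5, e6, ← ha2] at h
      exact h
    have h8 := os_rat hx24
    linarith
  · apply mul_nonneg <;> linarith

end MP_a3e05c_co.CA
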