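import Pool.Agent.Lib.MP_a3e05c_co.CA.OneStep
import Pool.Agent.Lib.MP_a3e05c_co.NUM.Log
import Pool.Agent.Lib.MP_a3e05c_co.RTK.NumC

/-!
# EULER, block CA: numerical values for `d ≤ 22`

The tables give the absolute values in units of `10 ^ (-10)`.
-/

open Finset Real

namespace MP_a3e05c_co.CA

open KL NCS

/-- upper bound for `- AA d` -/
def alT : ℕ → ℕ
  | 2 => 4620981205
  | 4 => 7506835952
  | 6 => 9539366567
  | 8 => 11072534488
  | 10 => 12294001822
  | 12 => 13304508931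
  | 14 => 14163689241
  | 16 => 14909486580
  | 18 => 15567411394
  | 20 => 16155389914
  | 22 => 16688340363
  | _ => 0

/-- lower bound for `- Ud d` -/
def upT : ℕ → ℕ
  | 2 => 13862943610
  | 4 => 36821039373
  | 6 => 65973129604
  | 8 => 98873615602
  | 10 => 134499267786
  | 12 => 172269766824
  | 14 => 211809075604
  | 16 => 252853309876
  | 18 => 295206990874
  | 20 => 338719485410
  | 22 => 383271164756
  | _ => 0

/-- lower bound for `- ft d` -/
def flT : ℕ → ℕ
  | 2 => 6931471804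
  | 4 => 7780966988
  | 6 => 9077379978
  | 8 => 10168743083
  | 10 => 11081493855
  | 12 => 11859861931
  | 14 => 12536424629
  | 16 => 13133962585
  | 18 => 13668646187
  | 20 => 14152253534
  | 22 => 14593587296
  | _ => 0

/-- upper bound for `- ft d` -/
def fuT : ℕ → ℕ
  | 2 => 6931471807
  | 4 => 7780966991
  | 6 => 9077379981
  | 8 => 10168743086
  | 10 => 11081493858
  | 12 => 11859861934
  | 14 => 12536424632
  | 16 => 13133962588
  | 18 => 13668646190
  | 20 => 14152253537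
  | 22 => 14593587299
  | _ => 0

/-- the certified values -/
structure Row (d : ℕ) : Prop where
  a : -(alT d : ℝ) / 10 ^ 10 ≤ AA d
  u : Ud d ≤ -(upT d : ℝ) / 10 ^ 10
  f : ft d ≤ -(flT d : ℝ) / 10 ^ 10
  f' : -(fuT d : ℝ) / 10 ^ 10 ≤ ft d

/-- upper bound for the sum of the logarithms -/
def wU (d : ℕ) : ℕ → ℕ
  | 0 => 0
  | i + 1 => wU d i + NUM.lgU ((d - 1) ^ 2 * (d - (i + 2) + 1))
      ((d - 1) ^ 2 * (d - (i + 2) + 1) - (i + 2) * (i + 1))

theorem wU_le (d : ℕ) : ∀ i, i + 2 ≤ d →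
    (NUM.S : ℝ) * ∑ k ∈ Ico 2 (i + 2),
      -log (1 - (k : ℝ) * (k - 1) / (((d : ℝ) - 1) ^ 2 * (d - k + 1))) ≤ wU d i := by
  intro i
  induction i with
  | zero =>
    intro _
    simp [wU]
  | succ i ih =>
    intro hi
    have h1 := ih (by omega)
    rw [sum_Ico_succ_top (by omega), mul_add]
    have hb : 0 < (d - 1) ^ 2 * (d - (i + 2) + 1) - (i + 2) * (i + 1) := by
      have h2 : (i + 2) * (i + 1) < (d - 1) ^ 2 * (d - (i + 2) + 1) := by
        have h3 : (i + 2) * (i + 1) < (d - 1) * (d - 1) := by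
          apply Nat.mul_lt_mul_of_le_of_lt <;> omega
        have h4 : (d - 1) * (d - 1) * 1 ≤ (d - 1) * (d - 1) * (d - (i + 2) + 1) :=
          Nat.mul_le_mul_left _ (by omega)
        rw [sq]
        omega
      omega
    have h2 := NUM.le_lgU hb (Nat.sub_le _ _)
    have h3 : ((((d - 1) ^ 2 * (d - (i + 2) + 1) : ℕ) : ℝ) /
        (((d - 1) ^ 2 * (d - (i + 2) + 1) - (i + 2) * (i + 1) : ℕ) : ℝ)) =
        (1 - ((i + 2 : ℕ) : ℝ) * (((i + 2 : ℕ) : ℝ) - 1) /
          (((d : ℝ) - 1) ^ 2 * (d - ((i + 2 : ℕ) : ℝ) + 1)))⁻¹ := by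
      have h4 : (i + 2) * (i + 1) ≤ (d - 1) ^ 2 * (d - (i + 2) + 1) := by omega
      rw [Nat.cast_sub h4]
      have c1 : ((d - 1 : ℕ) : ℝ) = d - 1 := by
        rw [Nat.cast_sub (by omega)]
        norm_num
      have c2 : ((d - (i + 2) + 1 : ℕ) : ℝ) = (d : ℝ) - (i + 2) + 1 := by
        push_cast
        rw [Nat.cast_sub (by omega)]
        push_cast
        ring
      have hd3 : (i : ℝ) + 3 ≤ d := by exact_mod_cast (by omega : i + 3 ≤ d)
      have hi0 : (0 : ℝ) ≤ i := Nat.cast_nonneg i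
      have h5 : 0 < ((d : ℝ) - 1) ^ 2 * ((d : ℝ) - (i + 2) + 1) := by
        apply mul_pos
        · apply pow_pos
          linarith
        · linarith
      push_cast at c2 ⊢
      rw [c1, c2]
      have h6 : (((d : ℝ) - 1) ^ 2 * ((d : ℝ) - (i + 2) + 1) - (i + 2) * (i + 1)) ≠ 0 := by
        have h7 : (0 : ℝ) < (((d - 1) ^ 2 * (d - (i + 2) + 1) - (i + 2) * (i + 1) : ℕ) : ℝ) := by
          exact_mod_cast hb
        rw [Nat.cast_sub h4] at h7
        push_cast at h7
        rw [c1, c2] at h7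
        exact h7.ne'
      have h7 : 1 - ((i : ℝ) + 2) * ((i : ℝ) + 2 - 1) /
          (((d : ℝ) - 1) ^ 2 * ((d : ℝ) - ((i : ℝ) + 2) + 1)) =
          (((d : ℝ) - 1) ^ 2 * ((d : ℝ) - (i + 2) + 1) - (i + 2) * (i + 1)) /
          (((d : ℝ) - 1) ^ 2 * ((d : ℝ) - (i + 2) + 1)) := by
        have h8 : ((i : ℝ) + 2) * ((i : ℝ) + 2 - 1) = ((i : ℝ) + 2) * ((i : ℝ) + 1) := by ring
        rw [h8, one_sub_div h5.ne']
      rw [h7, inv_div]
    rw [h3, log_inv] at h2
    show _ ≤ ((wU d i + NUM.lgU ((d - 1) ^ 2 * (d - (i + 2) + 1))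
      ((d - 1) ^ 2 * (d - (i + 2) + 1) - (i + 2) * (i + 1)) : ℕ) : ℝ)
    push_cast at h2 ⊢
    linarith

/-- the checks of a row, `m = d / 2`, `c` is the central binomial coefficient, `v` the lower bound
for the number of regular tournaments, `N = d (d + 1) / 2` -/
def Chk (d m c N v : ℕ) : Prop :=
  (NUM.lgU (2 ^ N) v * 10 ^ 10 ≤ alT d * (d + 1) * NUM.S) ∧
  (2 * NUM.S * upT d + 10 ^ 10 * wU d (d - 2) ≤ 10 ^ 10 * (2 * d * NUM.lgL (4 ^ m) c)) ∧
  (2 * NUM.S * flT d + 10 ^ 10 * NUM.lgU (2 * (d - 1)) d ≤ 2 * 10 ^ 10 * NUM.lgL (4 ^ m) c) ∧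
  (2 * 10 ^ 10 * NUM.lgU (4 ^ m) c ≤ 2 * NUM.S * fuT d + 10 ^ 10 * NUM.lgL (2 * (d - 1)) d)

instance (d m c N v : ℕ) : Decidable (Chk d m c N v) := by
  unfold Chk
  infer_instance

theorem row_of {d m c N v : ℕ} (hd : 2 ≤ d) (hm : d / 2 = m) (hc : Nat.centralBinom m = c)
    (hN : (d + 1) * d / 2 = N) (hv0 : 0 < v) (hv2 : v ≤ 2 ^ N) (hc2 : c ≤ 4 ^ m)
    (hv : (v : ℝ) ≤ KL.RT (d + 1)) (h : Chk d m c N v) : Row d := by
  obtain ⟨h1, h2, h3, h4⟩ := h
  have hS := NUM.S_pos
  have hS' : (NUM.S : ℝ) = 10 ^ 15 := by norm_num [NUM.S]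
  have hd2 : (2 : ℝ) ≤ d := by exact_mod_cast hd
  have hc0 : 0 < c := by
    rw [← hc]
    exact Nat.centralBinom_pos m
  have hcb : log (cb (d / 2)) = -log (((4 ^ m : ℕ) : ℝ) / (c : ℝ)) := by
    rw [hm]
    unfold cb
    rw [hc, ← log_inv, inv_div]
    push_cast
    rfl
  have b1 := NUM.lgL_le hc0 hc2
  have b2 := NUM.le_lgU hc0 hc2
  have d1 := NUM.lgL_le (a := 2 * (d - 1)) (b := d) (by omega) (by omega)
  have d2 := NUM.le_lgU (a := 2 * (d - 1)) (b := d) (by omega) (by omega)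
  have hdd : (((2 * (d - 1) : ℕ) : ℝ) / (d : ℝ)) = 2 * ((d : ℝ) - 1) / d := by
    push_cast
    rw [Nat.cast_sub (by omega)]
    norm_num
  rw [hdd] at d1 d2
  have p2 := NUM.le_lgU hv0 hv2
  have w2 := wU_le d (d - 2) (by omega)
  have e1 : d - 2 + 2 = d := by omega
  rw [e1] at w2
  have h1' : (NUM.lgU (2 ^ N) v : ℝ) * 10 ^ 10 ≤ alT d * (d + 1) * NUM.S := by exact_mod_cast h1
  have h2' : 2 * (NUM.S : ℝ) * upT d + 10 ^ 10 * wU d (d - 2) ≤
    10 ^ 10 * (2 * d * NUM.lgL (4 ^ m) c) := by exact_mod_cast h2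
  have h3' : 2 * (NUM.S : ℝ) * flT d + 10 ^ 10 * NUM.lgU (2 * (d - 1)) d ≤
    2 * 10 ^ 10 * NUM.lgL (4 ^ m) c := by exact_mod_cast h3
  have h4' : 2 * 10 ^ 10 * (NUM.lgU (4 ^ m) c : ℝ) ≤
    2 * NUM.S * fuT d + 10 ^ 10 * NUM.lgL (2 * (d - 1)) d := by exact_mod_cast h4
  set LB := log (((4 ^ m : ℕ) : ℝ) / (c : ℝ)) with hLB
  set LD := log (2 * ((d : ℝ) - 1) / d) with hLD
  rw [hS'] at b1 b2 d1 d2 p2 w2 h1' h2' h3' h4'
  refine ⟨?_, ?_, ?_, ?_⟩
  · -- AA
    have hRT : log (((2 ^ N : ℕ) : ℝ) / (v : ℝ)) ≥ -log (PK (d + 1)) := by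
      have hv0' : (0 : ℝ) < v := by exact_mod_cast hv0
      rw [ge_iff_le, ← log_inv]
      unfold PK
      have e2 : (d + 1) * (d + 1 - 1) / 2 = N := by
        rw [Nat.add_sub_cancel, hN]
      rw [e2, inv_div]
      push_cast
      apply log_le_log
      · apply div_pos (by positivity)
        linarith
      · exact div_le_div_of_nonneg_left (by positivity) hv0' hv
    have e3 := AA_mul d
    have h5 : ((d : ℝ) + 1) * (-(alT d : ℝ) / 10 ^ 10) ≤ ((d : ℝ) + 1) * AA d := by
      rw [e3]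
      have h6 : (10 : ℝ) ^ 15 * -log (PK (d + 1)) ≤ NUM.lgU (2 ^ N) v :=
        (mul_le_mul_of_nonneg_left hRT (by norm_num)).trans p2
      have h7 : (10 : ℝ) ^ 15 * -log (PK (d + 1)) * 10 ^ 10 ≤ alT d * (d + 1) * 10 ^ 15 :=
        (mul_le_mul_of_nonneg_right h6 (by norm_num)).trans h1'
      have h8 : ((d : ℝ) + 1) * (-(alT d : ℝ) / 10 ^ 10) =
          -(alT d * ((d : ℝ) + 1) * 10 ^ 15) / 10 ^ 25 := by
        ring
      rw [h8, div_le_iff₀ (by norm_num)]
      linarith
    exact le_of_mul_le_mul_left h5 (by linarith)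
  · -- Ud
    unfold Ud
    rw [hcb]
    rw [le_div_iff₀ (by norm_num)]
    have h5 : (d : ℝ) * (NUM.lgL (4 ^ m) c : ℝ) ≤ d * (10 ^ 15 * LB) :=
      mul_le_mul_of_nonneg_left b1 (by linarith)
    linarith
  · unfold ft
    rw [hcb]
    rw [le_div_iff₀ (by norm_num)]
    linarith
  · unfold ft
    rw [hcb]
    rw [div_le_iff₀ (by norm_num)]
    linarith

theorem row_2 : Row 2 :=
  row_of (m := 1) (c := 2) (N := 3)
    (v := 2) (by norm_num)
    (by norm_num) (by decide +kernel) (by norm_num) (by norm_num) (by norm_num) (by norm_num)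
    (by exact_mod_cast RTK.RT_3) (by decide +kernel)

theorem row_4 : Row 4 :=
  row_of (m := 2) (c := 6) (N := 10)
    (v := 24) (by norm_num)
    (by norm_num) (by decide +kernel) (by norm_num) (by norm_num) (by norm_num) (by norm_num)
    (by exact_mod_cast RTK.RT_5) (by decide +kernel)

theorem row_6 : Row 6 :=
  row_of (m := 3) (c := 20) (N := 21)
    (v := 2640) (by norm_num)
    (by norm_num) (by decide +kernel) (by norm_num) (by norm_num) (by norm_num) (by norm_num)
    (by exact_mod_cast RTK.RT_7) (by decide +kernel)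

theorem row_8 : Row 8 :=
  row_of (m := 4) (c := 70) (N := 36)
    (v := 3230080) (by norm_num)
    (by norm_num) (by decide +kernel) (by norm_num) (by norm_num) (by norm_num) (by norm_num)
    (by exact_mod_cast RTK.RT_9) (by decide +kernel)

theorem row_10 : Row 10 :=
  row_of (m := 5) (c := 252) (N := 55)
    (v := 48251508480) (by norm_num)
    (by norm_num) (by decide +kernel) (by norm_num) (by norm_num) (by norm_num) (by norm_num)
    (by exact_mod_cast RTK.RT_11) (by decide +kernel)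

theorem row_12 : Row 12 :=
  row_of (m := 6) (c := 924) (N := 78)
    (v := 9307700611292160) (by norm_num)
    (by norm_num) (by decide +kernel) (by norm_num) (by norm_num) (by norm_num) (by norm_num)
    (by exact_mod_cast RTK.RT_13) (by decide +kernel)

theorem row_14 : Row 14 :=
  row_of (m := 7) (c := 3432) (N := 105)
    (v := 24061983498249428379648) (by norm_num)
    (by norm_num) (by decide +kernel) (by norm_num) (by norm_num) (by norm_num) (by norm_num)
    (by exact_mod_cast RTK.RT_15) (by decide +kernel)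

theorem row_16 : Row 16 :=
  row_of (m := 8) (c := 12870) (N := 136)
    (v := 855847205541481495117975879680) (by norm_num)
    (by norm_num) (by decide +kernel) (by norm_num) (by norm_num) (by norm_num) (by norm_num)
    (by exact_mod_cast RTK.RT_17) (by decide +kernel)

theorem row_18 : Row 18 :=
  row_of (m := 9) (c := 48620) (N := 171)
    (v := 427102009099124449965536944854574242240) (by norm_num)
    (by norm_num) (by decide +kernel) (by norm_num) (by norm_num) (by norm_num) (by norm_num)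
    (by exact_mod_cast RTK.RT_19) (by decide +kernel)

theorem row_20 : Row 20 :=
  row_of (m := 10) (c := 184756) (N := 210)
    (v := 3035890034606593848108396779148026682657839269520) (by norm_num)
    (by norm_num) (by decide +kernel) (by norm_num) (by norm_num) (by norm_num) (by norm_num)
    (by exact_mod_cast RTK.RT_21) (by decide +kernel)

theorem row_22 : Row 22 :=
  row_of (m := 11) (c := 705432) (N := 253)
    (v := 309730805277905215004541028781254724301006201166405131270912) (by norm_num)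
    (by norm_num) (by decide +kernel) (by norm_num) (by norm_num) (by norm_num) (by norm_num)
    (by exact_mod_cast RTK.RT_23) (by decide +kernel)

/-- the final check -/
def Pair (D m : ℕ) : Prop :=
  ((D : ℤ) - 2 * m - 1) * (D * (-(flT D : ℤ) + 2 * alT D + upT D - (D + 1) * alT D) +
    (D - 1) * (m * (2 * (-(upT D : ℤ) + (D + 1) * alT D)))) ≤
  D * (D - 1) * (-(fuT (D - 2 * m) : ℤ) + 2 * alT (D - 2 * m) + upT (D - 2 * m) -
    ((D : ℤ) - 2 * m + 1) * alT (D - 2 * m))

instance (D m : ℕ) : Decidable (Pair D m) := by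
  unfold Pair
  infer_instance

theorem pair_all : ∀ D ∈ List.range 23, 8 ≤ D → D % 2 = 0 → ∀ m ∈ List.range 12, 1 ≤ m →
    2 * m + 2 ≤ D → Pair D m := by
  decide +kernel

end MP_a3e05c_co.CA
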